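import Pool.Agent.Y328.RSZ.SelB

/-!
# Project RSZ: `S_MER`
-/

set_option autoImplicit false

open Finset

namespace Pool.Agent.Y677.RSZ

open Pool.Agent.Y328.RSZ in
theorem mer : S_MER := by
  intro g A hA
  obtain ⟨C, hC0, hC⟩ := prod_int_le g
  refine ⟨Real.exp (-(2 * g * (Real.log A + C))), Real.exp_pos _, fun R H hR hRH hlog => ?_⟩
  have h1 := hC (fun _ => g) R R H A hR le_rfl hRH (fun _ _ => le_rfl) hA hlog
  have hpos : ∀ p ∈ (Ioc R H).filter Nat.Prime, 0 < 1 - (g : ℝ) / p := by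
    intro p hp
    rw [mem_filter, mem_Ioc] at hp
    have h2 : (g : ℝ) < p := by exact_mod_cast (by omega : g < p)
    have h3 : (0 : ℝ) < p := by exact_mod_cast hp.2.pos
    rw [sub_pos, div_lt_one h3]
    exact h2
  rw [Real.exp_neg]
  rcases Nat.eq_zero_or_pos g with h0 | h0
  · subst h0
    simp
  have hPP : PP (fun _ => g) R H = (Ioc R H).filter Nat.Prime := by
    unfold PP
    ext p
    rw [mem_filter, mem_filter]
    constructor
    · rintro ⟨h2, h3, _⟩; exact ⟨h2, h3⟩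
    · rintro ⟨h2, h3⟩; exact ⟨h2, h3, h0⟩
  rw [hPP, prod_inv_distrib] at h1
  have h4 : 0 < ∏ p ∈ (Ioc R H).filter Nat.Prime, (1 - (g : ℝ) / p) := prod_pos hpos
  exact inv_le_of_inv_le₀ h4 h1

end Pool.Agent.Y677.RSZ
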