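import Pool.Agent.Y677.RSZ.Low
import Pool.Agent.Y677.RSZ.Mer
import Pool.Agent.Y814.RSZ.Maj
import Pool.Agent.Y852.RSZ.MK
import Pool.Agent.Y852.RSZ.C1
import Pool.Agent.Y833.RSZ.LOC
import Pool.Agent.Y833.RSZ.CLS
import Pool.Agent.Y328.RSZ.SelB
import Pool.Agent.Y67.RSZ.POLY
import Pool.Agent.Y727.PSP.Top

/-!
# Szemerédi's theorem relative to sifted sets: the theorem without hypotheses
-/

set_option autoImplicit false

open Finset

namespace Pool.Agent.Y677.RSZ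

theorem maj_all : S_MAJ :=
  Pool.Agent.Y814.RSZ.maj Pool.Agent.Y852.RSZ.c1 Pool.Agent.Y328.RSZ.sel Pool.Agent.Y833.RSZ.LOC
    Pool.Agent.Y833.RSZ.CLS mer

/-- **Szemerédi's theorem relative to sifted sets.** -/
theorem eng_all : S_ENG :=
  eng Pool.Agent.Y727.PSP.rs_all Pool.Agent.Y852.RSZ.MK.mk maj_all

theorem low_all : S_LOW := low Pool.Agent.Y852.RSZ.c1

theorem poly_all : S_POLY := Pool.Agent.Y67.RSZ.poly

end Pool.Agent.Y677.RSZ
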