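import Pool.Agent.Y727.PSP.Stm

/-!
# Project RSZ (helper677): Szemerédi's theorem relative to sifted sets, exact statements of the tasks

`F : ℤ → ℤ` is a function for which `F n` modulo `p` depends only on `n` modulo `p` (a polynomial), with
at most `g` roots modulo every prime, fewer than `p`, and such that `F n`, `F (n + h)` have only few
common prime factors.  Let `A` be a set of integers `n` in an interval `(Y, Y + H]` such that `F n` has no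
prime factor `≤ H ^ δ`, with at least `κ H ∏_{p ≤ H} (1 - ρ(p) / p)` elements.  Then `A` contains an
arithmetic progression of length `k` with difference at most `(log H) ^ B`.
-/

set_option autoImplicit false

open Finset

namespace Pool.Agent.Y677.RSZ

open Pool.Agent.H602R3.DHJ (av)
open Pool.Agent.TH423.SH (PS)
open Pool.Agent.Y727.PSP (LFk)

/-- the number of the roots of `F` modulo `p` -/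
def rt (F : ℤ → ℤ) (p : ℕ) : ℕ := ((range p).filter (fun r : ℕ => (p : ℤ) ∣ F r)).card

/-- the number of `r < p` such that `p` divides some `F (W (r + t_i) + b)` -/
def rhoT (F : ℤ → ℤ) (W b : ℕ) {m : ℕ} (t : Fin m → ℕ) (p : ℕ) : ℕ :=
  ((range p).filter (fun r : ℕ => ∃ i, (p : ℤ) ∣ F ((W * (r + t i) + b : ℕ) : ℤ))).card

/-- the sieve product over the primes `p ≤ z`, `p ∤ W` -/
noncomputable def V (F : ℤ → ℤ) (W z : ℕ) : ℝ := ∏ p ∈ PS W z, (1 - (rt F p : ℝ) / p)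

/-- the systems to which the theorem applies -/
structure Sys (g : ℕ) (F : ℤ → ℤ) : Prop where
  per : ∀ p : ℕ, p.Prime → ∀ n : ℤ, (p : ℤ) ∣ F (n + p) - F n
  root : ∀ p : ℕ, p.Prime → rt F p ≤ g ∧ rt F p < p
  coll : ∃ Δ : ℕ → ℕ, ∀ h : ℕ, g ≤ h → 1 ≤ Δ h ∧ Δ h ≤ h ^ g ∧
    ∀ p : ℕ, p.Prime → ∀ n : ℤ, (p : ℤ) ∣ F n → (p : ℤ) ∣ F (n + h) → p ∣ Δ h

open Classical in
/-- (C1) the fundamental lemma for the numbers `F (W (K + t_i) + b)`, `K` in a class modulo `D` -/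
def S_C1 : Prop := ∃ C : ℕ, 1 ≤ C ∧ ∀ g m b₀ W : ℕ, C * (g * m + 1) ≤ b₀ → 1 ≤ W →
  (∀ p : ℕ, p.Prime → p ≤ C * (g * m + 1) → p ∣ W) → ∀ F : ℤ → ℤ, Sys g F →
  ∀ (t : Fin m → ℕ) (b J D a M L : ℕ), 1 ≤ D → (∀ p ∈ PS W (2 ^ 2 ^ J), ¬ p ∣ D) →
  |(((Ioc M (M + L)).filter (fun K => K % D = a % D ∧
      ∀ p ∈ PS W (2 ^ 2 ^ J), ∀ i, ¬ (p : ℤ) ∣ F ((W * (K + t i) + b : ℕ) : ℤ))).card : ℝ) -
    (L : ℝ) / D * ∏ p ∈ PS W (2 ^ 2 ^ J), (1 - (rhoT F W b t p : ℝ) / p)| ≤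
    (1 / 2 : ℝ) ^ b₀ * ((L : ℝ) / D * ∏ p ∈ PS W (2 ^ 2 ^ J), (1 - (rhoT F W b t p : ℝ) / p)) +
      ((2 : ℝ) ^ 2 ^ J) ^ (C * b₀)

/-- the multiplicative extension of `r` -/
def rs (r : ℕ → ℕ) (d : ℕ) : ℕ := ∏ p ∈ d.primeFactors, r p

/-- the quadratic form of a weight for the densities `r(p) / p` -/
noncomputable def qfr (r : ℕ → ℕ) (R : ℕ) (lam : ℕ → ℝ) : ℝ :=
  ∑ d ∈ Icc 1 R, ∑ e ∈ Icc 1 R, lam d * lam e * ((rs r (Nat.lcm d e) : ℝ) / (Nat.lcm d e : ℕ))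

/-- the sieve product over the primes in `(z, R]` -/
noncomputable def PR (r : ℕ → ℕ) (z R : ℕ) : ℝ :=
  ∏ p ∈ (Ioc z R).filter Nat.Prime, (1 - (r p : ℝ) / p)

/-- (SEL) Selberg's weights on the integers without prime factor `≤ z`, densities `r(p) / p` -/
def S_SEL : Prop := ∀ g : ℕ, ∃ C : ℝ, 0 < C ∧ ∀ (r : ℕ → ℕ) (z R : ℕ), 2 * g + 2 ≤ z → z ≤ R →
  (∀ p : ℕ, p.Prime → r p ≤ g) → ∃ lam : ℕ → ℝ,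
  lam 1 = 1 ∧ (∀ d, |lam d| ≤ 1) ∧
  (∀ d, lam d ≠ 0 → 1 ≤ d ∧ d ≤ R ∧ Squarefree d ∧ ∀ p : ℕ, p.Prime → p ∣ d → z < p) ∧
  PR r z R ≤ qfr r R lam ∧ qfr r R lam ≤ C * PR r z R

/-- (CLS) the number of the classes with given divisibility conditions -/
def S_CLS : Prop := ∀ F : ℤ → ℤ, (∀ p : ℕ, p.Prime → ∀ n : ℤ, (p : ℤ) ∣ F (n + p) - F n) →
  ∀ (W b m : ℕ) (D t : Fin m → ℕ), (∀ i, Squarefree (D i) ∧ Nat.Coprime (D i) W) →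
    (∀ i j, i ≠ j → Nat.Coprime (D i) (D j)) →
    ((range (∏ i, D i)).filter (fun r : ℕ =>
      ∀ i, (D i : ℤ) ∣ F ((W * (r + t i) + b : ℕ) : ℤ))).card = ∏ i, rs (rt F) (D i)

/-- (MER) a crude form of Mertens' theorem -/
def S_MER : Prop := ∀ (g : ℕ) (A : ℝ), 1 ≤ A → ∃ c : ℝ, 0 < c ∧ ∀ R H : ℕ, 2 * g + 2 ≤ R → R ≤ H →
  Real.log H ≤ A * Real.log R → c ≤ ∏ p ∈ (Ioc R H).filter Nat.Prime, (1 - (g : ℝ) / p)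

/-- (LOC) the local factors -/
def S_LOC : Prop := ∀ (g m : ℕ) (η : ℝ), 0 < η → ∃ s₀ : ℝ, ∀ s : ℝ, s₀ ≤ s → ∀ W N : ℕ,
  1 ≤ W → g ≤ W → 1 ≤ N → (∀ p : ℕ, p.Prime → (p : ℝ) ≤ s → p ∣ W) → Real.log (W * N) ≤ 4 * s →
  ∀ F : ℤ → ℤ, Sys g F → ∀ (t : Fin m → ℕ) (b : ℕ), Function.Injective t →
  (∀ i, 1 ≤ t i ∧ t i ≤ N) → ∀ R : ℕ,
    |∏ p ∈ PS W R, (1 - (rhoT F W b t p : ℝ) / p) - V F W R ^ m| ≤ η * V F W R ^ m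

/-- (MAJ) the majorant of the `n` with `F n` free of small primes -/
def S_MAJ : Prop := ∀ (g M : ℕ) (δ : ℝ), 0 < δ → ∃ c : ℝ, 0 < c ∧ ∀ η : ℝ, 0 < η →
  ∃ (B : ℕ) (s₀ : ℝ), ∀ B' : ℕ, ∃ H₀ : ℕ, ∀ (F : ℤ → ℤ) (Y H W N : ℕ) (s : ℝ), Sys g F → H₀ ≤ H →
  (∀ n ∈ Ioc Y (Y + H), F (n : ℤ) ≠ 0 ∧ |F (n : ℤ)| ≤ (H : ℤ) ^ g) →
  1 ≤ W → g ≤ W → 1 ≤ N → (W : ℝ) ≤ Real.log H ^ B' → (N : ℝ) ≤ Real.log H ^ B' → s₀ ≤ s →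
  (∀ p : ℕ, p.Prime → (p : ℝ) ≤ s → p ∣ W) → Real.log (W * N) ≤ 4 * s →
  ∃ ν : ℕ → ℝ, (∀ n, 0 ≤ ν n) ∧ (∀ n ∈ Ioc Y (Y + H), ν n ≤ Real.log H ^ B) ∧
    (∀ n ∈ Ioc Y (Y + H), (∀ p : ℕ, p.Prime → (p : ℝ) ≤ (H : ℝ) ^ δ → ¬ (p : ℤ) ∣ F (n : ℤ)) →
      c ≤ ν n * V F W H) ∧
    ∀ m ≤ M, ∀ t : Fin m → ℕ, Function.Injective t → (∀ i, 1 ≤ t i ∧ t i ≤ N) →
      ∀ b M₀ L : ℕ, (H : ℝ) ^ (1 / 2 : ℝ) ≤ L →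
        |(∑ K ∈ Ioc M₀ (M₀ + L), ∏ i, ν (W * (K + t i) + b)) / L - 1| ≤ η

open Classical in
/-- (MK) a family of weights with the right correlations on average satisfies the `k`-linear forms
condition for most of its members -/
def S_MK : Prop := ∀ k : ℕ, 2 ≤ k → ∀ η : ℝ, 0 < η → ∃ η' : ℝ, 0 < η' ∧
  ∀ (N : ℕ) [NeZero N], N.Prime → k ≤ N → ∀ (S : Finset ℕ) (w : ℕ → ZMod N → ℝ) (T : ℝ),
  S.Nonempty → 1 ≤ T → (∀ K a, 0 ≤ w K a) → (∀ K ∈ S, ∀ a, w K a ≤ T) →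
  T ^ (2 * (k * 2 ^ k)) / N ≤ η' →
  (∀ m ≤ 2 * (k * 2 ^ k), ∀ u : Fin m → ZMod N, Function.Injective u →
    |(∑ K ∈ S, ∏ i, w K (u i)) / S.card - 1| ≤ η') →
  ∑ K ∈ S, |av (w K) - 1| ≤ η * S.card ∧
  ((S.filter (fun K => ¬ LFk k N (w K) η)).card : ℝ) ≤ η * S.card

/-- (PIG) the classes modulo `W` without common prime factor -/
def S_PIG : Prop := ∀ F : ℤ → ℤ, (∀ p : ℕ, p.Prime → ∀ n : ℤ, (p : ℤ) ∣ F (n + p) - F n) →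
  ∀ W : ℕ, Squarefree W →
    ((range W).filter (fun b : ℕ => ∀ p ∈ W.primeFactors, ¬ (p : ℤ) ∣ F b)).card =
      ∏ p ∈ W.primeFactors, (p - rt F p)

/-- (ENG) Szemerédi's theorem relative to sifted sets -/
def S_ENG : Prop := ∀ (k g : ℕ) (δ κ : ℝ), 2 ≤ k → 0 < δ → 0 < κ → ∃ B H₀ : ℕ,
  ∀ (F : ℤ → ℤ) (Y H : ℕ) (A : Finset ℕ), Sys g F → H₀ ≤ H →
  (∀ n ∈ Ioc Y (Y + H), F (n : ℤ) ≠ 0 ∧ |F (n : ℤ)| ≤ (H : ℤ) ^ g) → A ⊆ Ioc Y (Y + H) →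
  (∀ n ∈ A, ∀ p : ℕ, p.Prime → (p : ℝ) ≤ (H : ℝ) ^ δ → ¬ (p : ℤ) ∣ F (n : ℤ)) →
  κ * (H * V F 1 H) ≤ A.card →
  ∃ a d : ℕ, 1 ≤ d ∧ (d : ℝ) ≤ Real.log H ^ B ∧ ∀ i < k, a + i * d ∈ A

/-- (LOW) a positive proportion of the sieve bound is attained in every interval -/
def S_LOW : Prop := ∀ g : ℕ, ∃ δ κ : ℝ, 0 < δ ∧ 0 < κ ∧ ∃ H₀ : ℕ, ∀ (F : ℤ → ℤ) (Y H : ℕ),
  Sys g F → H₀ ≤ H →
  ∃ A ⊆ Ioc Y (Y + H), (∀ n ∈ A, ∀ p : ℕ, p.Prime → (p : ℝ) ≤ (H : ℝ) ^ δ → ¬ (p : ℤ) ∣ F (n : ℤ)) ∧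
    κ * (H * V F 1 H) ≤ A.card

/-- (POLY) polynomials without fixed prime divisor are systems -/
def S_POLY : Prop := ∀ f : Polynomial ℤ, f ≠ 0 → (∀ p : ℕ, p.Prime → ∃ n : ℤ, ¬ (p : ℤ) ∣ f.eval n) →
  ∃ g : ℕ, Sys g (fun n => f.eval n)

end Pool.Agent.Y677.RSZ
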