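import Pool.Agent.Y677.RSZ.FinInst

set_option autoImplicit false

/-!
# Existence of narrow progressions
-/

namespace Pool.Agent.Y677.RSZ

open Finset Filter
open Pool.Agent.TH977.PW (N N_mono)

open Classical in
/-- many elements, few outside of the progressions: there is a progression -/
lemma prog_of_count (A : Set ℕ) (l : ℕ) (D : ℝ) (a b : ℕ) (t : ℝ)
    (h1 : t < N A a b) (h2 : (N (Outside A l D a b) a b : ℝ) ≤ t) :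
    ∃ u d : ℕ, 1 ≤ d ∧ (d : ℝ) ≤ D ∧ ∀ i < l, u + i * d ∈ A ∧ a < u + i * d ∧ u + i * d ≤ b := by
  by_contra hcon
  have h3 : N A a b ≤ N (Outside A l D a b) a b := by
    apply N_mono
    intro m _ _ hm
    refine ⟨hm, fun hin => hcon ?_⟩
    obtain ⟨u, d, h4, h5, h6, _⟩ := hin
    exact ⟨u, d, h4, h5, h6⟩
  have h4 : (N A a b : ℝ) ≤ N (Outside A l D a b) a b := by exact_mod_cast h3
  linarith

/-- the existence of narrow progressions in short intervals -/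
theorem exists_prog {R Al : Set ℕ} (hAR : Al ⊆ R) (k : ℕ) {θ : ℝ}
    (h1 : ∃ κ : ℝ, 0 < κ ∧ ∀ᶠ X : ℕ in atTop, ∀ Y : ℕ, (X : ℝ) ^ θ ≤ Y → Y ≤ X →
      κ * Y / Real.log X ^ k ≤ N Al X (X + Y))
    (h2 : ∀ l : ℕ, 2 ≤ l → ∀ ε : ℝ, 0 < ε → ∃ B : ℕ, ∀ᶠ X : ℕ in atTop, ∀ Y : ℕ,
      (X : ℝ) ^ θ ≤ Y → Y ≤ X → ∀ A : Set ℕ, A ⊆ R →
        (N (Outside A l (Real.log X ^ B) X (X + Y)) X (X + Y) : ℝ) ≤ ε * Y / Real.log X ^ k) :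
    ∀ l : ℕ, ∃ B : ℕ, ∀ᶠ X : ℕ in atTop, ∀ Y : ℕ, (X : ℝ) ^ θ ≤ Y → Y ≤ X →
      ∃ u d : ℕ, 1 ≤ d ∧ (d : ℝ) ≤ Real.log X ^ B ∧
        ∀ i < l, u + i * d ∈ Al ∧ X < u + i * d ∧ u + i * d ≤ X + Y := by
  intro l
  obtain ⟨κ, hκ, h1⟩ := h1
  obtain ⟨B, hB⟩ := h2 (l + 2) (by omega) (κ / 2) (by positivity)
  refine ⟨B, ?_⟩
  filter_upwards [h1, hB, eventually_ge_atTop 3] with X hX1 hX2 hX3 Y hXY hYX
  have hX3r : (3 : ℝ) ≤ X := by exact_mod_cast hX3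
  have hlog : 0 < Real.log X := Real.log_pos (by linarith)
  have hYpos : (0 : ℝ) < Y := lt_of_lt_of_le (Real.rpow_pos_of_pos (by linarith) _) hXY
  obtain ⟨u, d, h4, h5, h6⟩ := prog_of_count Al (l + 2) (Real.log X ^ B) X (X + Y)
    (κ / 2 * Y / Real.log X ^ k) (lt_of_lt_of_le (by
      apply div_lt_div_of_pos_right _ (by positivity)
      nlinarith) (hX1 Y hXY hYX)) (hX2 Y hXY hYX Al hAR)
  exact ⟨u, d, h4, h5, fun i hi => h6 i (by omega)⟩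

/-- the existence of narrow progressions in dyadic intervals -/
theorem exists_prog_dyadic {R Al : Set ℕ} (hAR : Al ⊆ R) (k : ℕ) {θ : ℝ} (hθ1 : θ ≤ 1)
    (h1 : ∃ κ : ℝ, 0 < κ ∧ ∀ᶠ X : ℕ in atTop, κ * X / Real.log X ^ k ≤ N Al X (2 * X))
    (h2 : ∀ l : ℕ, 2 ≤ l → ∀ ε : ℝ, 0 < ε → ∃ B : ℕ, ∀ᶠ X : ℕ in atTop, ∀ Y : ℕ,
      (X : ℝ) ^ θ ≤ Y → Y ≤ X → ∀ A : Set ℕ, A ⊆ R →
        (N (Outside A l (Real.log X ^ B) X (X + Y)) X (X + Y) : ℝ) ≤ ε * Y / Real.log X ^ k) :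
    ∀ l : ℕ, ∃ B : ℕ, ∀ᶠ X : ℕ in atTop,
      ∃ u d : ℕ, 1 ≤ d ∧ (d : ℝ) ≤ Real.log X ^ B ∧
        ∀ i < l, u + i * d ∈ Al ∧ X < u + i * d ∧ u + i * d ≤ 2 * X := by
  intro l
  obtain ⟨κ, hκ, h1⟩ := h1
  obtain ⟨B, hB⟩ := h2 (l + 2) (by omega) (κ / 2) (by positivity)
  refine ⟨B, ?_⟩
  filter_upwards [h1, hB, eventually_ge_atTop 3] with X hX1 hX2 hX3
  have hX3r : (3 : ℝ) ≤ X := by exact_mod_cast hX3
  have hlog : 0 < Real.log X := Real.log_pos (by linarith)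
  have hXY : (X : ℝ) ^ θ ≤ X := by
    calc (X : ℝ) ^ θ ≤ (X : ℝ) ^ (1 : ℝ) := Real.rpow_le_rpow_of_exponent_le (by linarith) hθ1
      _ = X := Real.rpow_one _
  have h3 := hX2 X hXY le_rfl Al hAR
  rw [← two_mul] at h3
  obtain ⟨u, d, h4, h5, h6⟩ := prog_of_count Al (l + 2) (Real.log X ^ B) X (2 * X)
    (κ / 2 * X / Real.log X ^ k) (lt_of_lt_of_le (by
      apply div_lt_div_of_pos_right _ (by positivity)
      nlinarith) hX1) h3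
  exact ⟨u, d, h4, h5, fun i hi => h6 i (by omega)⟩

end Pool.Agent.Y677.RSZ
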