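import Pool.Agent.Y677.RSZ.Fin
import Pool.Agent.TH977.PW.Prog

set_option autoImplicit false

/-!
# Narrow progressions: linear forms, quadratic polynomials at primes, tuples in residue classes

The interfaces are those of `TH977.PW.Inst` and `TH977.PW.Prog`.
-/

namespace Pool.Agent.Y677.RSZ

open Polynomial Finset Filter
open Pool.Agent.W123.RP Pool.Agent.H373R2.T7 Pool.Agent.W123.RU Pool.Agent.W123.RU.Poly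
open Pool.Agent.W182.PW
open Pool.Agent.TH977.PW (N N_mono Rough Few RoughX sys_lin rough_lin few_lin lower_prog)

/-- linear forms, integer arguments -/
theorem narrow_lin {ι : Type} [Fintype ι] [Nonempty ι] (a : ι → ℕ) (b : ι → ℤ) (ha : ∀ i, 0 < a i)
    (hab : ∀ i, IsCoprime (a i : ℤ) (b i)) (hinj : ∀ i j, a i = a j → b i = b j → i = j)
    (hadm : ∀ p : ℕ, p.Prime → ∃ m : ℕ, ∀ i, ¬ (p : ℤ) ∣ (a i : ℤ) * m + b i)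
    (R Al : ℕ → Set ℕ) (k : ℕ) (hk : Fintype.card ι = k)
    (hR : ∀ r m : ℕ, 2 ≤ r → m ∈ R r → ∀ i, ∀ p : ℕ, p.Prime → (p : ℤ) ∣ (a i : ℤ) * m + b i →
      (m : ℝ) ^ (1 / (r : ℝ)) < (p : ℝ))
    (hAl : ∀ r m : ℕ, 2 ≤ r → (∀ i, ∀ p : ℕ, p.Prime → (p : ℤ) ∣ (a i : ℤ) * m + b i →
      (m : ℝ) ^ (1 / (r : ℝ)) < (p : ℝ)) →
      (∀ i, ((a i : ℤ) * m + b i).natAbs.primeFactorsList.length ≤ r) → m ∈ Al r)
    (θ : ℝ) (hθ : 0 < θ) (hθ1 : θ ≤ 1) :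
    ∃ r0 : ℕ, 2 ≤ r0 ∧ ∀ r : ℕ, r0 ≤ r →
    (∃ κ : ℝ, 0 < κ ∧ ∀ᶠ X : ℕ in atTop, ∀ Y : ℕ, (X : ℝ) ^ θ ≤ Y → Y ≤ X →
      κ * Y / Real.log X ^ k ≤ N (Al r) X (X + Y)) ∧
    ∀ l : ℕ, 2 ≤ l → ∀ ε : ℝ, 0 < ε → ∃ B : ℕ, ∀ᶠ X : ℕ in atTop, ∀ Y : ℕ,
      (X : ℝ) ^ θ ≤ Y → Y ≤ X → ∀ A : Set ℕ, A ⊆ R r →
        (N (Outside A l (Real.log X ^ B) X (X + Y)) X (X + Y) : ℝ) ≤ ε * Y / Real.log X ^ k :=
  narrow_final (fun i => lin (a i) (b i)) (sys_lin a b ha hab hinj hadm) R Al k hk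
    (fun r m h2r h => (rough_lin a b r m).2 (hR r m h2r h))
    (fun r m h2r h1 h2 => hAl r m h2r ((rough_lin a b r m).1 h1) ((few_lin a b r m).1 h2)) θ hθ hθ1

/-- linear forms, prime arguments -/
theorem narrow_lin_prime {ι : Type} [Fintype ι] (a : ι → ℕ) (b : ι → ℤ) (ha : ∀ i, 0 < a i)
    (hab : ∀ i, IsCoprime (a i : ℤ) (b i)) (hinj : ∀ i j, a i = a j → b i = b j → i = j)
    (hX : ∀ i, ¬ (a i = 1 ∧ b i = 0))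
    (hadm : ∀ p : ℕ, p.Prime → ∃ m : ℕ, ¬ p ∣ m ∧ ∀ i, ¬ (p : ℤ) ∣ (a i : ℤ) * m + b i)
    (R Al : ℕ → Set ℕ) (k : ℕ) (hk : Fintype.card ι + 1 = k)
    (hR : ∀ r m : ℕ, 2 ≤ r → m ∈ R r → (∀ p : ℕ, p.Prime → p ∣ m → (m : ℝ) ^ (1 / (r : ℝ)) < (p : ℝ)) ∧
      ∀ i, ∀ p : ℕ, p.Prime → (p : ℤ) ∣ (a i : ℤ) * m + b i →
      (m : ℝ) ^ (1 / (r : ℝ)) < (p : ℝ))
    (hAl : ∀ r m : ℕ, 2 ≤ r → m.Prime → (∀ i, ∀ p : ℕ, p.Prime → (p : ℤ) ∣ (a i : ℤ) * m + b i →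
      (m : ℝ) ^ (1 / (r : ℝ)) < (p : ℝ)) →
      (∀ i, ((a i : ℤ) * m + b i).natAbs.primeFactorsList.length ≤ r) → m ∈ Al r)
    (θ : ℝ) (hθ : 0 < θ) (hθ1 : θ ≤ 1) :
    ∃ r0 : ℕ, 2 ≤ r0 ∧ ∀ r : ℕ, r0 ≤ r →
    (∃ κ : ℝ, 0 < κ ∧ ∀ᶠ X : ℕ in atTop, κ * X / Real.log X ^ k ≤ N (Al r) X (2 * X)) ∧
    ∀ l : ℕ, 2 ≤ l → ∀ ε : ℝ, 0 < ε → ∃ B : ℕ, ∀ᶠ X : ℕ in atTop, ∀ Y : ℕ,
      (X : ℝ) ^ θ ≤ Y → Y ≤ X → ∀ A : Set ℕ, A ⊆ R r →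
        (N (Outside A l (Real.log X ^ B) X (X + Y)) X (X + Y) : ℝ) ≤ ε * Y / Real.log X ^ k :=
  narrow_prime (fun i => lin (a i) (b i)) (fun i => lin_irr _ _ (ha i) (hab i))
    (fun i => lin_deg _ _ (ha i)) (fun i => lin_lead _ _ (ha i))
    (fun i j hij => hinj i j (lin_inj hij).1 (lin_inj hij).2) (fun i => lin_ne_X (hX i))
    (fun p hp => by
      obtain ⟨m, h1, h2⟩ := hadm p hp
      refine ⟨m, h1, fun i => ?_⟩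
      rw [lin_eval]
      exact h2 i) R Al k hk
    (fun r m h2r h => ⟨(hR r m h2r h).1, (rough_lin a b r m).2 (hR r m h2r h).2⟩)
    (fun r m h2r h0 h1 h2 => hAl r m h2r h0 ((rough_lin a b r m).1 h1) ((few_lin a b r m).1 h2)) θ hθ hθ1

/-- one quadratic polynomial at prime arguments -/
theorem narrow_quad_prime (a b c : ℤ) (ha : 0 < a)
    (hg : ∀ p : ℕ, p.Prime → ¬ ((p : ℤ) ∣ a ∧ (p : ℤ) ∣ b ∧ (p : ℤ) ∣ c))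
    (hD : ¬ IsSquare (b ^ 2 - 4 * a * c))
    (hadm : ∀ p : ℕ, p.Prime → ∃ m : ℕ, ¬ p ∣ m ∧ ¬ (p : ℤ) ∣ a * (m : ℤ) ^ 2 + b * m + c)
    (R Al : ℕ → Set ℕ)
    (hR : ∀ r m : ℕ, 2 ≤ r → m ∈ R r → (∀ p : ℕ, p.Prime → p ∣ m → (m : ℝ) ^ (1 / (r : ℝ)) < (p : ℝ)) ∧
      ∀ p : ℕ, p.Prime → (p : ℤ) ∣ a * (m : ℤ) ^ 2 + b * m + c →
      (m : ℝ) ^ (1 / (r : ℝ)) < (p : ℝ))
    (hAl : ∀ r m : ℕ, 2 ≤ r → m.Prime → (∀ p : ℕ, p.Prime → (p : ℤ) ∣ a * (m : ℤ) ^ 2 + b * m + c →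
      (m : ℝ) ^ (1 / (r : ℝ)) < (p : ℝ)) →
      (a * (m : ℤ) ^ 2 + b * m + c).natAbs.primeFactorsList.length ≤ r → m ∈ Al r)
    (θ : ℝ) (hθ : 0 < θ) (hθ1 : θ ≤ 1) :
    ∃ r0 : ℕ, 2 ≤ r0 ∧ ∀ r : ℕ, r0 ≤ r →
    (∃ κ : ℝ, 0 < κ ∧ ∀ᶠ X : ℕ in atTop, κ * X / Real.log X ^ 2 ≤ N (Al r) X (2 * X)) ∧
    ∀ l : ℕ, 2 ≤ l → ∀ ε : ℝ, 0 < ε → ∃ B : ℕ, ∀ᶠ X : ℕ in atTop, ∀ Y : ℕ,
      (X : ℝ) ^ θ ≤ Y → Y ≤ X → ∀ A : Set ℕ, A ⊆ R r →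
        (N (Outside A l (Real.log X ^ B) X (X + Y)) X (X + Y) : ℝ) ≤ ε * Y / Real.log X ^ 2 :=
  narrow_prime (fun _ : Fin 1 => Pool.Agent.TH464.PW.quad a b c)
    (fun _ => Pool.Agent.TH464.PW.quad_irr a b c ha.ne' hg hD)
    (fun _ => by rw [Pool.Agent.TH464.PW.quad_deg a b c ha.ne']; norm_num)
    (fun _ => by rw [Pool.Agent.TH464.PW.quad_lead a b c ha.ne']; exact ha)
    (fun _ _ _ => Subsingleton.elim _ _)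
    (fun _ h => by
      have h1 := Pool.Agent.TH464.PW.quad_deg a b c ha.ne'
      rw [h, natDegree_X] at h1
      omega)
    (fun p hp => by
      obtain ⟨m, h1, h2⟩ := hadm p hp
      refine ⟨m, h1, fun _ => ?_⟩
      rw [Pool.Agent.TH464.PW.quad_eval]
      exact h2) R Al 2 (by rw [Fintype.card_fin])
    (fun r m h2r h => ⟨(hR r m h2r h).1, fun _ p hp hd => (hR r m h2r h).2 p hp (by
      rw [Pool.Agent.TH464.PW.quad_eval] at hd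
      exact hd)⟩)
    (fun r m h2r h0 h1 h2 => hAl r m h2r h0 (fun p hp hd => h1 0 p hp (by
      rw [Pool.Agent.TH464.PW.quad_eval]
      exact hd)) (by
      have := h2 0
      rw [Pool.Agent.TH464.PW.quad_eval] at this
      exact this)) θ hθ hθ1

open Classical in
/-- **Tuples.** Narrow progressions for the tuple `H`, lower bound in a residue class. -/
theorem narrow_prog (H : Finset ℕ) (hne : H.Nonempty) (M n0 : ℕ) (hM : 0 < M)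
    (hcop : ∀ h ∈ H, Nat.Coprime (n0 + h) M)
    (hadm : ∀ p : ℕ, p.Prime → ∃ m : ℕ, ∀ h ∈ H, ¬ p ∣ m + h)
    (R Al : ℕ → Set ℕ) (k : ℕ) (hk : H.card = k)
    (hR : ∀ r m : ℕ, 2 ≤ r → m ∈ R r → ∀ h ∈ H, ∀ p : ℕ, p.Prime → p ∣ m + h →
      (m : ℝ) ^ (1 / (r : ℝ)) < (p : ℝ))
    (hAl : ∀ r : ℕ, 2 ≤ r → ∀ᶠ m : ℕ in atTop, m % M = n0 % M → (∀ h ∈ H, ∀ p : ℕ, p.Prime →
      p ∣ m + h → (m : ℝ) ^ (1 / (r : ℝ)) < (p : ℝ)) →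
      (∀ h ∈ H, (m + h).primeFactorsList.length ≤ r) → m ∈ Al r)
    (θ : ℝ) (hθ : 0 < θ) (hθ1 : θ ≤ 1) :
    ∃ r0 : ℕ, 2 ≤ r0 ∧ ∀ r : ℕ, r0 ≤ r →
    (∃ κ : ℝ, 0 < κ ∧ ∀ᶠ X : ℕ in atTop, ∀ Y : ℕ, (X : ℝ) ^ θ ≤ Y → Y ≤ X →
      κ * Y / Real.log X ^ k ≤ N (Al r) X (X + Y)) ∧
    ∀ l : ℕ, 2 ≤ l → ∀ ε : ℝ, 0 < ε → ∃ B : ℕ, ∀ᶠ X : ℕ in atTop, ∀ Y : ℕ,
      (X : ℝ) ^ θ ≤ Y → Y ≤ X → ∀ A : Set ℕ, A ⊆ R r →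
        (N (Outside A l (Real.log X ^ B) X (X + Y)) X (X + Y) : ℝ) ≤ ε * Y / Real.log X ^ k := by
  subst hk
  have : Nonempty {x // x ∈ H} := ⟨⟨hne.choose, hne.choose_spec⟩⟩
  have hcast : ∀ (t h : ℕ), ((1 : ℕ) : ℤ) * (t : ℤ) + ((h : ℕ) : ℤ) = ((t + h : ℕ) : ℤ) := by
    intro t h
    push_cast
    ring
  obtain ⟨ra, hra, ha⟩ := narrow_lin (fun _ : {x // x ∈ H} => 1)
    (fun i : {x // x ∈ H} => ((i.1 : ℕ) : ℤ)) (fun _ => one_pos)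
    (fun i => by rw [Nat.cast_one]; exact isCoprime_one_left)
    (fun i j _ hij => Subtype.ext (by exact_mod_cast hij))
    (fun p hp => by
      obtain ⟨m, hm⟩ := hadm p hp
      refine ⟨m, fun i hi => hm i.1 i.2 ?_⟩
      rw [hcast, Int.natCast_dvd_natCast] at hi
      exact hi)
    R (fun _ => Set.univ) H.card (by rw [Fintype.card_coe])
    (fun r m hr hm i p hp hd => hR r m hr hm i.1 i.2 p hp (by
      rw [hcast, Int.natCast_dvd_natCast] at hd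
      exact hd)) (fun _ _ _ _ _ => Set.mem_univ _) θ hθ hθ1
  obtain ⟨rb, hrb, hb⟩ := lower_prog H hne M n0 hM hcop hadm θ hθ hθ1
  refine ⟨max ra rb, hra.trans (le_max_left _ _), fun r hr => ⟨?_, ?_⟩⟩
  · obtain ⟨κ, hκ, h⟩ := hb r ((le_max_right _ _).trans hr)
    refine ⟨κ, hκ, ?_⟩
    obtain ⟨m0, hm0⟩ := eventually_atTop.1 (hAl r (hra.trans ((le_max_left _ _).trans hr)))
    filter_upwards [h, eventually_ge_atTop m0] with X hX hXm Y hXY hYX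
    refine (hX Y hXY hYX).trans ?_
    have : N {n | n % M = n0 % M ∧ ∀ h ∈ H,
          (∀ p : ℕ, p.Prime → p ∣ n + h → (n : ℝ) ^ (1 / (r : ℝ)) < (p : ℝ)) ∧
          (n + h).primeFactorsList.length ≤ r} X (X + Y) ≤ N (Al r) X (X + Y) := by
      apply N_mono
      rintro m h1 h2 ⟨h3, h4⟩
      exact hm0 m (by omega) h3 (fun h hh => (h4 h hh).1) (fun h hh => (h4 h hh).2)
    exact_mod_cast this
  · exact (ha r ((le_max_left _ _).trans hr)).2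

end Pool.Agent.Y677.RSZ
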