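import Pool.Agent.Y677.RSZ.FinEx
import Pool.Agent.Y175.PW.Quad

set_option autoImplicit false

/-!
# Narrow progressions: one quadratic polynomial, all arguments
-/

namespace Pool.Agent.Y677.RSZ

open Polynomial Finset Filter
open Pool.Agent.TH977.PW (N)

/-- one admissible quadratic polynomial -/
theorem narrow_quad (a b c : ℤ) (ha : 0 < a)
    (hg : ∀ p : ℕ, p.Prime → ¬ ((p : ℤ) ∣ a ∧ (p : ℤ) ∣ b ∧ (p : ℤ) ∣ c))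
    (hD : ¬ IsSquare (b ^ 2 - 4 * a * c)) (hpar : ¬ (Even (a + b) ∧ Even c))
    (R Al : ℕ → Set ℕ)
    (hR : ∀ r m : ℕ, 2 ≤ r → m ∈ R r → ∀ p : ℕ, p.Prime → (p : ℤ) ∣ a * (m : ℤ) ^ 2 + b * m + c →
      (m : ℝ) ^ (1 / (r : ℝ)) < (p : ℝ))
    (hAl : ∀ r m : ℕ, 2 ≤ r → (∀ p : ℕ, p.Prime → (p : ℤ) ∣ a * (m : ℤ) ^ 2 + b * m + c →
      (m : ℝ) ^ (1 / (r : ℝ)) < (p : ℝ)) →
      (a * (m : ℤ) ^ 2 + b * m + c).natAbs.primeFactorsList.length ≤ r → m ∈ Al r)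
    (θ : ℝ) (hθ : 0 < θ) (hθ1 : θ ≤ 1) :
    ∃ r0 : ℕ, 2 ≤ r0 ∧ ∀ r : ℕ, r0 ≤ r →
    (∃ κ : ℝ, 0 < κ ∧ ∀ᶠ X : ℕ in atTop, ∀ Y : ℕ, (X : ℝ) ^ θ ≤ Y → Y ≤ X →
      κ * Y / Real.log X ^ 1 ≤ N (Al r) X (X + Y)) ∧
    ∀ l : ℕ, 2 ≤ l → ∀ ε : ℝ, 0 < ε → ∃ B : ℕ, ∀ᶠ X : ℕ in atTop, ∀ Y : ℕ,
      (X : ℝ) ^ θ ≤ Y → Y ≤ X → ∀ A : Set ℕ, A ⊆ R r →
        (N (Outside A l (Real.log X ^ B) X (X + Y)) X (X + Y) : ℝ) ≤ ε * Y / Real.log X ^ 1 :=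
  narrow_final
    (fun _ : Fin 1 => Pool.Agent.TH464.PW.quad a b c)
    { irr := fun _ => Pool.Agent.TH464.PW.quad_irr a b c ha.ne' hg hD
      deg := fun _ => by rw [Pool.Agent.TH464.PW.quad_deg a b c ha.ne']; norm_num
      lead := fun _ => by rw [Pool.Agent.TH464.PW.quad_lead a b c ha.ne']; exact ha
      inj := Function.injective_of_subsingleton _
      adm := fun p hp => by
        obtain ⟨m, hm⟩ := Pool.Agent.TH464.PW.quad_adm a b c hg hpar p hp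
        exact ⟨m, fun _ => hm⟩ } R Al 1 (by simp)
    (fun r m h2r hm i p hp hd => hR r m h2r hm p hp (by
      rwa [Pool.Agent.TH464.PW.quad_eval] at hd))
    (fun r m h2r h1 h2 => hAl r m h2r (fun p hp hd => h1 0 p hp (by
      rwa [Pool.Agent.TH464.PW.quad_eval])) (by
      have := h2 0
      rwa [Pool.Agent.TH464.PW.quad_eval] at this)) θ hθ hθ1

end Pool.Agent.Y677.RSZ
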