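import Pool.Agent.Y677.RSZ.Stm
import Pool.Agent.Y727.PSP.Fb
import Pool.Agent.Y674.PSP.SEL

/-!
# Project RSZ: assembly of `S_ENG`, part 1
-/

set_option autoImplicit false

open Finset

namespace Pool.Agent.Y677.RSZ

open Pool.Agent.H602R3.DHJ
open Pool.Agent.TH423.SH (PS)
open Pool.Agent.Y727.PSP (LFk rp rp_pos rp_le sum_rp exAP lift LF_mono)

section basic

variable {F : ℤ → ℤ} {g : ℕ}

theorem per_mul (hF : ∀ p : ℕ, p.Prime → ∀ n : ℤ, (p : ℤ) ∣ F (n + p) - F n) {p : ℕ} (hp : p.Prime)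
    (n : ℤ) (j : ℕ) : (p : ℤ) ∣ F (n + j * p) - F n := by
  induction j with
  | zero => simp
  | succ j ih =>
    have h1 := hF p hp (n + j * p)
    have e : n + ((j + 1 : ℕ) : ℤ) * p = n + j * p + p := by push_cast; ring
    rw [e]
    have := dvd_add h1 ih
    simpa using this

theorem per_mod (hF : ∀ p : ℕ, p.Prime → ∀ n : ℤ, (p : ℤ) ∣ F (n + p) - F n) {p : ℕ} (hp : p.Prime)
    (m n : ℕ) (h : m ≡ n [MOD p]) : (p : ℤ) ∣ F m ↔ (p : ℤ) ∣ F n := by
  have key : ∀ a : ℕ, ((p : ℤ) ∣ F a ↔ (p : ℤ) ∣ F ((a % p : ℕ) : ℤ)) := by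
    intro a
    have h1 := per_mul hF hp ((a % p : ℕ) : ℤ) (a / p)
    have e : (((a % p : ℕ) : ℤ) + ((a / p : ℕ) : ℤ) * p) = (a : ℤ) := by
      have := Nat.mod_add_div a p
      have h2 : ((a % p + p * (a / p) : ℕ) : ℤ) = (a : ℤ) := by rw [this]
      push_cast at h2 ⊢
      linarith
    rw [e] at h1
    constructor
    · intro h3
      have := dvd_sub h3 h1
      simpa using this
    · intro h3
      have := dvd_add h1 h3
      simpa using this
  rw [key m, key n]
  unfold Nat.ModEq at h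
  rw [h]

theorem rt_le (p : ℕ) : rt F p ≤ p := by
  unfold rt
  exact (card_filter_le _ _).trans (by simp)

theorem fac_nonneg (p : ℕ) : 0 ≤ 1 - (rt F p : ℝ) / p := by
  rcases Nat.eq_zero_or_pos p with h | h
  · subst h; simp
  · have hp : (0 : ℝ) < p := by exact_mod_cast h
    rw [sub_nonneg, div_le_one hp]
    exact_mod_cast rt_le p

theorem fac_le (p : ℕ) : 1 - (rt F p : ℝ) / p ≤ 1 := by
  have : 0 ≤ (rt F p : ℝ) / p := by positivity
  linarith

theorem fac_pos (hF : Sys g F) {p : ℕ} (hp : p.Prime) : 0 < 1 - (rt F p : ℝ) / p := by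
  have h0 : (0 : ℝ) < p := by exact_mod_cast hp.pos
  rw [sub_pos, div_lt_one h0]
  exact_mod_cast (hF.root p hp).2

theorem V_pos (hF : Sys g F) (W z : ℕ) : 0 < V F W z := by
  unfold V
  apply prod_pos
  intro p hp
  unfold PS at hp
  rw [mem_filter] at hp
  exact fac_pos hF hp.2.1

theorem V_le_one (W z : ℕ) : V F W z ≤ 1 := by
  unfold V
  exact prod_le_one (fun p _ => fac_nonneg p) (fun p _ => fac_le p)

/-- the factors of the primes dividing `W` -/
theorem V_split (W H : ℕ) (hW : W ≠ 0) (hWH : ∀ p : ℕ, p.Prime → p ∣ W → p ≤ H) :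
    V F 1 H = (∏ p ∈ W.primeFactors, (1 - (rt F p : ℝ) / p)) * V F W H := by
  unfold V
  have h1 : W.primeFactors ⊆ PS 1 H := by
    intro p hp
    have hpp := Nat.prime_of_mem_primeFactors hp
    unfold PS
    rw [mem_filter, mem_Icc]
    exact ⟨⟨hpp.one_lt.le, hWH p hpp (Nat.dvd_of_mem_primeFactors hp)⟩, hpp, by
      rw [Nat.dvd_one]; exact hpp.ne_one⟩
  have h2 : PS W H = PS 1 H \ W.primeFactors := by
    ext p
    unfold PS
    rw [mem_sdiff, mem_filter, mem_filter, Nat.mem_primeFactors]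
    constructor
    · rintro ⟨h3, h4, h5⟩
      exact ⟨⟨h3, h4, by rw [Nat.dvd_one]; exact h4.ne_one⟩, fun h6 => h5 h6.2.1⟩
    · rintro ⟨⟨h3, h4, _⟩, h5⟩
      exact ⟨h3, h4, fun h6 => h5 ⟨h4, h6, hW⟩⟩
  rw [h2, ← prod_sdiff h1, mul_comm]

end basic

/-- a lower bound for the sieve product -/
theorem V_lower : ∃ K : ℝ, 1 ≤ K ∧ ∀ (g : ℕ) (F : ℤ → ℤ) (W H : ℕ), Sys g F → 2 ≤ H →
    (∀ p : ℕ, p.Prime → p ≤ 2 * g + 2 → p ∣ W) → 1 / (K * Real.log H) ^ (2 * g) ≤ V F W H := by
  obtain ⟨K, hK, hV⟩ := Pool.Agent.Y674.PSP.VV_le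
  refine ⟨max K 1 * (1 / Real.log 2), ?_, fun g F W H hF hH hW => ?_⟩
  · have h2 : 0 < Real.log 2 := Real.log_pos (by norm_num)
    have h3 : Real.log 2 ≤ 1 := by linarith [Real.log_two_lt_d9]
    have h4 : 1 ≤ 1 / Real.log 2 := by rw [le_div_iff₀ h2]; linarith
    have h5 : 1 ≤ max K 1 := le_max_right _ _
    nlinarith
  have hlog2 : 0 < Real.log 2 := Real.log_pos (by norm_num)
  have hlogH : Real.log 2 ≤ Real.log H := Real.log_le_log (by norm_num) (by exact_mod_cast hH)
  have h1 := hV H hH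
  have hVV0 : 0 < Pool.Agent.Y674.PSP.VV H := by
    unfold Pool.Agent.Y674.PSP.VV
    apply prod_pos
    intro p hp
    rw [mem_filter] at hp
    have h2 : (1 : ℝ) < p := by exact_mod_cast hp.2.one_lt
    have h3 : (p : ℝ)⁻¹ < 1 := inv_lt_one_of_one_lt₀ h2
    have : 0 < 1 - (p : ℝ)⁻¹ := by linarith
    positivity
  have hmax : Pool.Agent.Y674.PSP.VV H ≤ max K 1 * (1 / Real.log 2) * Real.log H := by
    refine h1.trans ?_
    have h4 : 1 ≤ 1 / Real.log 2 := by
      rw [le_div_iff₀ hlog2]; linarith [Real.log_two_lt_d9]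
    have h5 : K ≤ max K 1 := le_max_left _ _
    have h6 : (0 : ℝ) < max K 1 := lt_of_lt_of_le one_pos (le_max_right _ _)
    have h7 : K ≤ max K 1 * (1 / Real.log 2) := by nlinarith
    exact mul_le_mul_of_nonneg_right h7 (by linarith)
  calc 1 / (max K 1 * (1 / Real.log 2) * Real.log H) ^ (2 * g) ≤
      1 / (Pool.Agent.Y674.PSP.VV H) ^ (2 * g) := by
        apply one_div_le_one_div_of_le (by positivity)
        exact pow_le_pow_left₀ hVV0.le hmax _
    _ = ∏ p ∈ (Icc 1 H).filter Nat.Prime, (1 - (p : ℝ)⁻¹) ^ (2 * g) := by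
        unfold Pool.Agent.Y674.PSP.VV
        rw [prod_pow, one_div, ← inv_pow, ← prod_inv_distrib]
        simp only [inv_inv]
    _ ≤ ∏ p ∈ PS W H, (1 - (p : ℝ)⁻¹) ^ (2 * g) := by
        have hsub : PS W H ⊆ (Icc 1 H).filter Nat.Prime := by
          intro p hp
          unfold PS at hp
          rw [mem_filter] at hp ⊢
          exact ⟨hp.1, hp.2.1⟩
        have hall : ∀ p ∈ (Icc 1 H).filter Nat.Prime, 0 ≤ (1 - (p : ℝ)⁻¹) ^ (2 * g) ∧
            (1 - (p : ℝ)⁻¹) ^ (2 * g) ≤ 1 := by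
          intro p hp
          rw [mem_filter] at hp
          have h2 : (1 : ℝ) < p := by exact_mod_cast hp.2.one_lt
          have h3 : (p : ℝ)⁻¹ < 1 := inv_lt_one_of_one_lt₀ h2
          have h4 : 0 < (p : ℝ)⁻¹ := by positivity
          exact ⟨pow_nonneg (by linarith) _, pow_le_one₀ (by linarith) (by linarith)⟩
        rw [← prod_sdiff hsub]
        apply mul_le_of_le_one_left
        · exact prod_nonneg fun p hp => (hall p (hsub hp)).1
        · exact prod_le_one (fun p hp => (hall p (mem_sdiff.1 hp).1).1)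
            (fun p hp => (hall p (mem_sdiff.1 hp).1).2)
    _ ≤ V F W H := by
        unfold V
        apply prod_le_prod
        · intro p hp
          unfold PS at hp
          rw [mem_filter] at hp
          have h2 : (1 : ℝ) < p := by exact_mod_cast hp.2.1.one_lt
          have h3 : (p : ℝ)⁻¹ < 1 := inv_lt_one_of_one_lt₀ h2
          have : 0 ≤ 1 - (p : ℝ)⁻¹ := by linarith
          positivity
        · intro p hp
          unfold PS at hp
          rw [mem_filter] at hp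
          have hpg : 2 * g + 2 < p := by
            by_contra hcon
            exact hp.2.2 (hW p hp.2.1 (by omega))
          have hp0 : (0 : ℝ) < p := by exact_mod_cast hp.2.1.pos
          have hpg' : (2 : ℝ) * g + 2 ≤ p := by exact_mod_cast hpg.le
          have hr : (rt F p : ℝ) ≤ g := by exact_mod_cast (hF.root p hp.2.1).1
          have hx : (p : ℝ)⁻¹ * (2 * g + 2) ≤ 1 := by
            rw [inv_mul_le_iff₀ hp0]; linarith
          have hx0 : 0 < (p : ℝ)⁻¹ := by positivity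
          have h5 : (1 - (p : ℝ)⁻¹) ^ (2 * g) ≤ 1 - g * (p : ℝ)⁻¹ := by
            have hg0 := (Nat.cast_nonneg g : (0 : ℝ) ≤ g)
            have hx1 : (p : ℝ)⁻¹ ≤ 1 := by nlinarith
            have h6 : 1 + ((2 * g : ℕ) : ℝ) * (p : ℝ)⁻¹ ≤ (1 + (p : ℝ)⁻¹) ^ (2 * g) :=
              one_add_mul_le_pow (by linarith) _
            push_cast at h6
            have h8 : (1 - (p : ℝ)⁻¹) ^ (2 * g) * (1 + (p : ℝ)⁻¹) ^ (2 * g) ≤ 1 := by
              rw [← mul_pow]
              apply pow_le_one₀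
              · nlinarith
              · nlinarith
            have h9 : 0 ≤ (1 - (p : ℝ)⁻¹) ^ (2 * g) := pow_nonneg (by linarith) _
            have h10 : (1 - (p : ℝ)⁻¹) ^ (2 * g) * (1 + 2 * g * (p : ℝ)⁻¹) ≤ 1 :=
              (mul_le_mul_of_nonneg_left h6 h9).trans h8
            have h11 : 1 ≤ (1 - g * (p : ℝ)⁻¹) * (1 + 2 * g * (p : ℝ)⁻¹) := by
              have h12 : 0 ≤ (g : ℝ) * (p : ℝ)⁻¹ := by positivity
              nlinarith
            have h13 : 0 < 1 + 2 * g * (p : ℝ)⁻¹ := by positivity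
            exact le_of_mul_le_mul_right (h10.trans h11) h13
          have h7 : (rt F p : ℝ) / p ≤ g * (p : ℝ)⁻¹ := by
            rw [div_eq_mul_inv]
            exact mul_le_mul_of_nonneg_right hr hx0.le
          linarith

end Pool.Agent.Y677.RSZ
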