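import Pool.Agent.Y677.RSZ.Eng1
import Pool.Agent.Y833.RSZ.CLS

/-!
# Project RSZ: assembly of `S_ENG`, part 2 (the classes modulo `W`)
-/

set_option autoImplicit false

open Finset

namespace Pool.Agent.Y677.RSZ

open Pool.Agent.H602R3.DHJ
open Pool.Agent.TH423.SH (PS)

theorem pig : S_PIG := by
  classical
  intro F hF W hW
  have h1 := Pool.Agent.Y833.RSZ.card_prod W.primeFactors (fun p hp => Nat.prime_of_mem_primeFactors hp)
    (fun p r => ¬ (p : ℤ) ∣ F ((r : ℕ) : ℤ)) (by
      intro p hp r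
      rw [not_iff_not]
      exact per_mod hF (Nat.prime_of_mem_primeFactors hp) _ _ (Nat.mod_modEq r p).symm)
  rw [Nat.prod_primeFactors_of_squarefree hW] at h1
  refine Eq.trans ?_ (h1.trans ?_)
  · apply congrArg Finset.card
    ext r
    simp only [mem_filter]
  · apply prod_congr rfl
    intro p _
    have h2 := card_filter_add_card_filter_not (s := range p) (p := fun r : ℕ => (p : ℤ) ∣ F (r : ℤ))
    rw [card_range] at h2
    unfold rt
    have e1 : ((range p).filter (fun r : ℕ => ¬ (p : ℤ) ∣ F (r : ℤ))).card =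
      p - ((range p).filter (fun r : ℕ => (p : ℤ) ∣ F (r : ℤ))).card := by omega
    convert e1

/-- some class modulo `W` contains as many elements of `A` as expected -/
theorem exb {g : ℕ} {F : ℤ → ℤ} (hF : Sys g F) (W H : ℕ) (hW : Squarefree W)
    (hWH : ∀ p : ℕ, p.Prime → p ∣ W → p ≤ H) (A : Finset ℕ) (κ : ℝ) (hκ : 0 < κ) (hH : 1 ≤ H)
    (hA : ∀ n ∈ A, ∀ p ∈ W.primeFactors, ¬ (p : ℤ) ∣ F (n : ℤ))
    (hAc : κ * (H * V F 1 H) ≤ A.card) :
    ∃ b < W, κ * (H / W * V F W H) ≤ ((A.filter (fun n => n % W = b)).card : ℝ) := by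
  classical
  have hW0 : 0 < W := Nat.pos_of_ne_zero hW.ne_zero
  have hW0' : (0 : ℝ) < W := by exact_mod_cast hW0
  have hH0 : (0 : ℝ) < H := by exact_mod_cast hH
  set Bs := (range W).filter (fun b : ℕ => ∀ p ∈ W.primeFactors, ¬ (p : ℤ) ∣ F b) with hBs
  have hBc : (Bs.card : ℝ) = W * ∏ p ∈ W.primeFactors, (1 - (rt F p : ℝ) / p) := by
    have h1 : Bs.card = ∏ p ∈ W.primeFactors, (p - rt F p) := by
      rw [hBs]
      have := pig F hF.per W hW
      convert this
    rw [h1, Nat.cast_prod]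
    have h2 : (W : ℝ) = ∏ p ∈ W.primeFactors, (p : ℝ) := by
      conv_lhs => rw [← Nat.prod_primeFactors_of_squarefree hW]
      push_cast
      rfl
    conv_rhs => rw [h2]
    rw [← prod_mul_distrib]
    apply prod_congr rfl
    intro p hp
    have hp0 : (p : ℝ) ≠ 0 := by
      have := (Nat.prime_of_mem_primeFactors hp).pos
      positivity
    rw [Nat.cast_sub (rt_le p)]
    field_simp
  have hmaps : ∀ n ∈ A, n % W ∈ Bs := by
    intro n hn
    rw [hBs, mem_filter, mem_range]
    refine ⟨Nat.mod_lt _ hW0, fun p hp h => ?_⟩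
    apply hA n hn p hp
    have hpp := Nat.prime_of_mem_primeFactors hp
    refine (per_mod hF.per hpp n (n % W) ?_).2 h
    exact (Nat.mod_modEq n W).symm.of_dvd (Nat.dvd_of_mem_primeFactors hp)
  have hVp := V_pos hF 1 H
  have hAne : A.Nonempty := by
    rw [← card_pos]
    have : (0 : ℝ) < A.card := lt_of_lt_of_le (by positivity) hAc
    exact_mod_cast this
  have hBne : Bs.Nonempty := by
    obtain ⟨n, hn⟩ := hAne
    exact ⟨_, hmaps n hn⟩
  have hBpos : (0 : ℝ) < Bs.card := by
    have := card_pos.2 hBne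
    exact_mod_cast this
  have hprod : 0 < ∏ p ∈ W.primeFactors, (1 - (rt F p : ℝ) / p) := by
    rw [hBc] at hBpos
    exact (mul_pos_iff_of_pos_left hW0').1 hBpos
  by_contra hcon
  push Not at hcon
  have h3 : (A.card : ℝ) = ∑ b ∈ Bs, ((A.filter (fun n => n % W = b)).card : ℝ) := by
    rw [card_eq_sum_card_fiberwise hmaps]
    push_cast
    rfl
  have h4 : (A.card : ℝ) < ∑ _b ∈ Bs, κ * (H / W * V F W H) := by
    rw [h3]
    apply sum_lt_sum_of_nonempty hBne
    intro b hb
    rw [hBs, mem_filter, mem_range] at hb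
    exact hcon b hb.1
  rw [sum_const, nsmul_eq_mul, hBc] at h4
  have h5 := V_split (F := F) W H hW0.ne' hWH
  have h6 : (W : ℝ) * (∏ p ∈ W.primeFactors, (1 - (rt F p : ℝ) / p)) * (κ * (H / W * V F W H)) =
      κ * (H * V F 1 H) := by
    rw [h5]
    field_simp
  rw [h6] at h4
  linarith

end Pool.Agent.Y677.RSZ
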