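import Pool.Agent.Y677.RSZ.Eng2

/-!
# Project RSZ: assembly of `S_ENG`, part 3 (a good window and its progression)
-/

set_option autoImplicit false

open Finset

namespace Pool.Agent.Y677.RSZ

open Pool.Agent.H602R3.DHJ
open Pool.Agent.TH423.SH (PS)
open Pool.Agent.Y727.PSP (LFk rp rp_pos rp_le sum_rp exAP lift LF_mono rp_cast)

/-- the weight of the window `K` -/
noncomputable def wK (ν : ℕ → ℝ) (N W b K : ℕ) (a : ZMod N) : ℝ := ν (W * (K + rp a) + b)

open Classical in
/-- the part of the weight on `A`, in the first half of the window -/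
noncomputable def gK (ν : ℕ → ℝ) (A : Finset ℕ) (N W b h K : ℕ) (a : ZMod N) : ℝ :=
  if rp a ≤ h ∧ W * (K + rp a) + b ∈ A then ν (W * (K + rp a) + b) else 0

theorem gK_nonneg (ν : ℕ → ℝ) (hν : ∀ n, 0 ≤ ν n) (A : Finset ℕ) (N W b h K : ℕ) (a : ZMod N) :
    0 ≤ gK ν A N W b h K a := by
  unfold gK
  split_ifs
  · exact hν _
  · exact le_rfl

theorem gK_le (ν : ℕ → ℝ) (hν : ∀ n, 0 ≤ ν n) (A : Finset ℕ) (N W b h K : ℕ) (a : ZMod N) :
    gK ν A N W b h K a ≤ wK ν N W b K a := by
  unfold gK wK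
  split_ifs
  · exact le_rfl
  · exact hν _

open Classical in
/-- the number of `K` in a window of multipliers with `W (K + a) + b ∈ A` -/
theorem cntK (A : Finset ℕ) (Y H W b M₀ L N a : ℕ) (hW : 1 ≤ W) (hb : b < W) (hA : A ⊆ Ioc Y (Y + H))
    (hM : M₀ = Y / W) (hL : L + N + 1 = H / W) (haN : a ≤ N) :
    ((A.filter (fun n => n % W = b)).card : ℝ) - (N + 4) ≤
      (((Ioc M₀ (M₀ + L)).filter (fun K => W * (K + a) + b ∈ A)).card : ℝ) := by
  set Ab := A.filter (fun n => n % W = b) with hAb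
  -- the elements which are lost
  have h1 : Ab.card ≤ ((Ioc M₀ (M₀ + L)).filter (fun K => W * (K + a) + b ∈ A)).card +
      (N + 4) := by
    have h2 : Ab ⊆ ((Ioc M₀ (M₀ + L)).filter (fun K => W * (K + a) + b ∈ A)).image
        (fun K => W * (K + a) + b) ∪ ((Icc M₀ (M₀ + a)) ∪ (Ioc (M₀ + L + a) (M₀ + L + N + 3))).image
        (fun m => W * m + b) := by
      intro n hn
      rw [hAb, mem_filter] at hn
      have hn1 := mem_Ioc.1 (hA hn.1)
      have hnm : W * (n / W) + b = n := by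
        rw [← hn.2]; exact Nat.div_add_mod n W
      have h3 : M₀ ≤ n / W := by
        rw [hM]; exact Nat.div_le_div_right hn1.1.le
      have h4 : n / W ≤ M₀ + L + N + 3 := by
        have h5 : n / W ≤ (Y + H) / W := Nat.div_le_div_right hn1.2
        have h6 : (Y + H) / W ≤ Y / W + H / W + 1 := by
          rw [Nat.add_div (by omega)]
          split_ifs <;> omega
        omega
      rw [mem_union, mem_image, mem_image]
      by_cases h7 : M₀ + a < n / W ∧ n / W ≤ M₀ + L + a
      · left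
        refine ⟨n / W - a, ?_, ?_⟩
        · rw [mem_filter, mem_Ioc]
          refine ⟨by omega, ?_⟩
          rw [show n / W - a + a = n / W by omega, hnm]
          exact hn.1
        · rw [show n / W - a + a = n / W by omega, hnm]
      · right
        refine ⟨n / W, ?_, hnm⟩
        rw [mem_union, mem_Icc, mem_Ioc]
        omega
    refine (card_le_card h2).trans ((card_union_le _ _).trans ?_)
    have h3 : ((Icc M₀ (M₀ + a) ∪ Ioc (M₀ + L + a) (M₀ + L + N + 3)).image
        (fun m => W * m + b)).card ≤ N + 4 := by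
      refine card_image_le.trans ((card_union_le _ _).trans ?_)
      rw [Nat.card_Icc, Nat.card_Ioc]
      omega
    have h4 : (((Ioc M₀ (M₀ + L)).filter (fun K => W * (K + a) + b ∈ A)).image
        (fun K => W * (K + a) + b)).card ≤
        ((Ioc M₀ (M₀ + L)).filter (fun K => W * (K + a) + b ∈ A)).card := card_image_le
    omega
  have h2 : (Ab.card : ℝ) ≤ (((Ioc M₀ (M₀ + L)).filter (fun K => W * (K + a) + b ∈ A)).card : ℝ) +
      (N + 4) := by
    exact_mod_cast h1
  linarith

open Classical in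
/-- a good window -/
theorem goodK (ν : ℕ → ℝ) (A : Finset ℕ) (Y H W b M₀ L N h : ℕ) [NeZero N] (c v κ δ η : ℝ)
    (Bd : Finset ℕ) (hν : ∀ n, 0 ≤ ν n) (hW : 1 ≤ W) (hb : b < W) (hA : A ⊆ Ioc Y (Y + H))
    (hM : M₀ = Y / W) (hL : L + N + 1 = H / W) (hL1 : 1 ≤ L) (hN : 5 ≤ N) (hh : h = (N - 1) / 2)
    (hv : 0 < v) (hc : 0 < c) (hκ : 0 < κ) (hνA : ∀ n ∈ A, c ≤ ν n * v)
    (hAb : κ * (H / W * v) ≤ ((A.filter (fun n => n % W = b)).card : ℝ))
    (hbig : 2 * (N + 4) ≤ κ * (H / W * v)) (hδ : 0 < δ) (hδ2 : 24 * δ ≤ c * κ)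
    (h1 : ∑ K ∈ Ioc M₀ (M₀ + L), |av (wK ν N W b K) - 1| ≤ η * L)
    (h2 : Bd ⊆ Ioc M₀ (M₀ + L)) (h3 : (Bd.card : ℝ) ≤ η * L) (h4 : η ≤ δ) :
    ∃ K ∈ Ioc M₀ (M₀ + L), K ∉ Bd ∧ δ ≤ av (gK ν A N W b h K) := by
  have hN0 : (0 : ℝ) < N := by exact_mod_cast (show 0 < N by omega)
  have hL0 : (0 : ℝ) < L := by exact_mod_cast hL1
  have hW0 : (0 : ℝ) < W := by exact_mod_cast hW
  have hhN : h ≤ N := by omega
  have h3h : (N : ℝ) ≤ 3 * h := by
    have : N ≤ 3 * h := by omega
    exact_mod_cast this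
  have hLH : (L : ℝ) ≤ H / W := by
    have e1 : ((H / W : ℕ) : ℝ) ≤ H / W := Nat.cast_div_le
    have e2 : (L : ℝ) ≤ ((H / W : ℕ) : ℝ) := by
      rw [← hL]; push_cast; linarith
    linarith
  -- lower bound for the sum
  have hlow : 4 * δ * L ≤ ∑ K ∈ Ioc M₀ (M₀ + L), av (gK ν A N W b h K) := by
    have e1 : ∀ K, av (gK ν A N W b h K) =
        (∑ u ∈ Icc 1 N, if u ≤ h ∧ W * (K + u) + b ∈ A then ν (W * (K + u) + b) else 0) / N := by
      intro K
      rw [av, ZMod.card, ← sum_rp N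
        (fun u => if u ≤ h ∧ W * (K + u) + b ∈ A then ν (W * (K + u) + b) else 0)]
      rfl
    have e2 : ∀ K ∈ Ioc M₀ (M₀ + L), (∑ u ∈ Icc 1 h, if W * (K + u) + b ∈ A then c / v else 0) / N ≤
        av (gK ν A N W b h K) := by
      intro K _
      rw [e1 K]
      apply div_le_div_of_nonneg_right _ hN0.le
      have hsub : Icc 1 h ⊆ Icc 1 N := Icc_subset_Icc le_rfl hhN
      refine le_trans (sum_le_sum fun u hu => ?_) (sum_le_sum_of_subset_of_nonneg hsub ?_)
      · rw [mem_Icc] at hu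
        by_cases hp : W * (K + u) + b ∈ A
        · rw [if_pos hp, if_pos ⟨hu.2, hp⟩, div_le_iff₀ hv]
          exact hνA _ hp
        · rw [if_neg hp, if_neg (fun hc => hp hc.2)]
      · intro u _ _
        split_ifs
        · exact hν _
        · exact le_rfl
    refine le_trans ?_ (sum_le_sum e2)
    rw [← sum_div, sum_comm, le_div_iff₀ hN0]
    have e3 : ∀ u ∈ Icc 1 h, κ * (H / W * v) / 2 * (c / v) ≤
        ∑ K ∈ Ioc M₀ (M₀ + L), if W * (K + u) + b ∈ A then c / v else 0 := by
      intro u hu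
      rw [mem_Icc] at hu
      rw [← sum_filter, sum_const, nsmul_eq_mul]
      apply mul_le_mul_of_nonneg_right _ (by positivity)
      have := cntK A Y H W b M₀ L N u hW hb hA hM hL (hu.2.trans hhN)
      linarith
    refine le_trans ?_ (sum_le_sum e3)
    rw [sum_const, nsmul_eq_mul, Nat.card_Icc, Nat.add_sub_cancel]
    have e4 : (h : ℝ) * (κ * (H / W * v) / 2 * (c / v)) = h * (c * κ * (H / W) / 2) := by
      field_simp
    rw [e4]
    calc 4 * δ * L * N ≤ 4 * δ * L * (3 * h) := by gcongr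
      _ = h * (24 * δ * L / 2) := by ring
      _ ≤ h * (c * κ * (H / W) / 2) := by gcongr
  -- the upper bound if there is no good window
  by_contra hcon
  push Not at hcon
  have hup : ∑ K ∈ Ioc M₀ (M₀ + L), av (gK ν A N W b h K) ≤ δ * L + (Bd.card + η * L) := by
    rw [← sum_sdiff h2]
    apply add_le_add
    · calc ∑ K ∈ Ioc M₀ (M₀ + L) \ Bd, av (gK ν A N W b h K) ≤ ∑ K ∈ Ioc M₀ (M₀ + L) \ Bd, δ := by
            apply sum_le_sum
            intro K hK
            rw [mem_sdiff] at hK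
            exact (hcon K hK.1 hK.2).le
        _ ≤ ∑ K ∈ Ioc M₀ (M₀ + L), δ :=
            sum_le_sum_of_subset_of_nonneg sdiff_subset fun _ _ _ => hδ.le
        _ = δ * L := by
            rw [sum_const, nsmul_eq_mul, Nat.card_Ioc]
            have : M₀ + L - M₀ = L := by omega
            rw [this]
            ring
    · calc ∑ K ∈ Bd, av (gK ν A N W b h K) ≤ ∑ K ∈ Bd, (1 + |av (wK ν N W b K) - 1|) := by
            apply sum_le_sum
            intro K _
            have h5 : av (gK ν A N W b h K) ≤ av (wK ν N W b K) := av_mono (gK_le ν hν A N W b h K)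
            have h6 := le_abs_self (av (wK ν N W b K) - 1)
            linarith
        _ = Bd.card + ∑ K ∈ Bd, |av (wK ν N W b K) - 1| := by
            rw [sum_add_distrib, sum_const, nsmul_eq_mul, mul_one]
        _ ≤ Bd.card + η * L := by
            gcongr
            exact (sum_le_sum_of_subset_of_nonneg h2 fun _ _ _ => abs_nonneg _).trans h1
  nlinarith

end Pool.Agent.Y677.RSZ
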