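import Pool.Agent.Y677.RSZ.Eng3

/-!
# Project RSZ: assembly of `S_ENG`, part 4
-/

set_option autoImplicit false

open Finset

namespace Pool.Agent.Y677.RSZ

open Pool.Agent.H602R3.DHJ
open Pool.Agent.TH423.SH (PS)
open Pool.Agent.Y727.PSP (LFk rp rp_pos rp_le sum_rp exAP lift LF_mono rp_cast S_RS)

theorem ev_log (a : ℕ) (C e : ℝ) (he : 0 < e) :
    ∀ᶠ H : ℕ in Filter.atTop, C * Real.log H ^ a ≤ (H : ℝ) ^ e := by
  have h := (isLittleO_log_rpow_rpow_atTop (a : ℝ) he).bound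
    (show (0 : ℝ) < 1 / (|C| + 1) by positivity)
  have h2 := (tendsto_natCast_atTop_atTop (R := ℝ)).eventually h
  filter_upwards [h2, Filter.eventually_ge_atTop 1] with H hH hH1
  have hlog : 0 ≤ Real.log H := Real.log_natCast_nonneg H
  have hHe : 0 ≤ (H : ℝ) ^ e := by positivity
  rw [Real.norm_of_nonneg (by positivity), Real.norm_of_nonneg hHe, Real.rpow_natCast, one_div,
    inv_mul_eq_div, le_div_iff₀ (by positivity)] at hH
  have h1 : C ≤ |C| + 1 := (le_abs_self C).trans (by linarith)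
  have h3 : 0 ≤ Real.log H ^ a := by positivity
  nlinarith

/-- the numerical conditions -/
theorem nums (k g BN s1 B' : ℕ) (δ κ η' cR K : ℝ) (hδ : 0 < δ) (hκ : 0 < κ) (hη' : 0 < η')
    (hcR : 0 < cR) (hB' : B' = 2 * BN + 3) : ∃ H₀ : ℕ, ∀ H : ℕ, H₀ ≤ H →
    2 ≤ H ∧ (k : ℝ) + 8 ≤ Real.log H ∧ 1 / Real.log H ≤ η' ∧ 1 / Real.log H < cR ∧
    (4 : ℝ) ^ (s1 + 1) * (4 * Real.log H ^ BN) ^ 2 ≤ Real.log H ^ B' ∧
    4 * Real.log H ^ BN ≤ Real.log H ^ B' ∧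
    10 * Real.log H ^ (2 * B') * (K * Real.log H) ^ (2 * g) ≤ κ * H ∧
    ((s1 : ℝ) + 1 + B') * Real.log H ≤ (H : ℝ) ^ δ ∧ ((s1 : ℝ) + 1 + B') * Real.log H ≤ H ∧
    ((H : ℝ) ^ (1 / 2 : ℝ) + Real.log H ^ B' + 3) * Real.log H ^ B' ≤ H := by
  apply Filter.eventually_atTop.1
  have hlog : Filter.Tendsto (fun H : ℕ => Real.log H) Filter.atTop Filter.atTop :=
    Real.tendsto_log_atTop.comp tendsto_natCast_atTop_atTop
  filter_upwards [Filter.eventually_ge_atTop 2, hlog.eventually_ge_atTop ((k : ℝ) + 8),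
    hlog.eventually_ge_atTop (1 / η'), hlog.eventually_gt_atTop (1 / cR),
    hlog.eventually_ge_atTop ((4 : ℝ) ^ (s1 + 1) * 16),
    ev_log (2 * B' + 2 * g) (10 * |K| ^ (2 * g) / κ) 1 one_pos,
    ev_log 1 ((s1 : ℝ) + 1 + B') δ hδ, ev_log 1 ((s1 : ℝ) + 1 + B') 1 one_pos,
    ev_log B' 1 (1 / 4) (by norm_num), ev_log B' 3 (1 / 4) (by norm_num),
    (tendsto_natCast_atTop_atTop (R := ℝ)).eventually
      ((tendsto_rpow_atTop (by norm_num : (0 : ℝ) < 1 / 4)).eventually_ge_atTop 5)]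
    with H h1 h2 h3 h4 h5 h6 h7 h8 h9 h10 h11
  have hk0 := (Nat.cast_nonneg k : (0 : ℝ) ≤ k)
  have hl8 : 8 ≤ Real.log H := by linarith
  have hl0 : 0 < Real.log H := by linarith
  have hl1 : 1 ≤ Real.log H := by linarith
  have hH0 : (0 : ℝ) < H := by exact_mod_cast (show 0 < H by omega)
  refine ⟨h1, h2, ?_, ?_, ?_, ?_, ?_, ?_, ?_, ?_⟩
  · rw [div_le_iff₀ hη'] at h3
    rw [div_le_iff₀ hl0]
    linarith
  · rw [div_lt_iff₀ hcR] at h4
    rw [div_lt_iff₀ hl0]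
    linarith
  · have e1 : (4 : ℝ) ^ (s1 + 1) * (4 * Real.log H ^ BN) ^ 2 =
        ((4 : ℝ) ^ (s1 + 1) * 16) * Real.log H ^ (2 * BN) := by ring
    rw [e1, hB']
    calc ((4 : ℝ) ^ (s1 + 1) * 16) * Real.log H ^ (2 * BN) ≤ Real.log H * Real.log H ^ (2 * BN) := by
          gcongr
      _ = Real.log H ^ (2 * BN + 1) := by ring
      _ ≤ _ := pow_le_pow_right₀ hl1 (by omega)
  · rw [hB']
    calc 4 * Real.log H ^ BN ≤ Real.log H * Real.log H ^ BN := by gcongr; linarith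
      _ = Real.log H ^ (BN + 1) := by ring
      _ ≤ _ := pow_le_pow_right₀ hl1 (by omega)
  · rw [Real.rpow_one] at h6
    have e1 : (K * Real.log H) ^ (2 * g) ≤ |K| ^ (2 * g) * Real.log H ^ (2 * g) := by
      rw [← mul_pow]
      calc (K * Real.log H) ^ (2 * g) = |K * Real.log H| ^ (2 * g) := by
            rw [(even_two_mul g).pow_abs]
        _ = (|K| * Real.log H) ^ (2 * g) := by rw [abs_mul, abs_of_pos hl0]
        _ ≤ _ := le_rfl
    calc 10 * Real.log H ^ (2 * B') * (K * Real.log H) ^ (2 * g) ≤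
        10 * Real.log H ^ (2 * B') * (|K| ^ (2 * g) * Real.log H ^ (2 * g)) := by gcongr
      _ = κ * (10 * |K| ^ (2 * g) / κ * Real.log H ^ (2 * B' + 2 * g)) := by
          rw [pow_add]
          field_simp
      _ ≤ κ * H := by gcongr
  · rw [pow_one] at h7; exact h7
  · rw [pow_one, Real.rpow_one] at h8; exact h8
  · have hq0 : 0 < (H : ℝ) ^ (1 / 4 : ℝ) := by positivity
    have e1 : (H : ℝ) ^ (1 / 2 : ℝ) = (H : ℝ) ^ (1 / 4 : ℝ) * (H : ℝ) ^ (1 / 4 : ℝ) := by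
      rw [← Real.rpow_add hH0]; norm_num
    have e2 : (H : ℝ) = ((H : ℝ) ^ (1 / 4 : ℝ)) ^ 4 := by
      rw [← Real.rpow_natCast, ← Real.rpow_mul hH0.le]; norm_num
    rw [one_mul] at h9
    have e3 : ((H : ℝ) ^ (1 / 2 : ℝ) + Real.log H ^ B' + 3) * Real.log H ^ B' ≤
        ((H : ℝ) ^ (1 / 4 : ℝ)) ^ 4 := by
      rw [e1]
      have hy0 : 0 ≤ Real.log H ^ B' := by positivity
      generalize (H : ℝ) ^ (1 / 4 : ℝ) = x at h9 h10 h11 hq0
      generalize Real.log H ^ B' = y at h9 h10 hy0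
      have hy : y ≤ x := h9
      have hx5 : 5 ≤ x := h11
      calc (x * x + y + 3) * y ≤ (x * x + x + 3) * x := by gcongr
        _ ≤ x ^ 4 := by nlinarith [mul_pos hq0 hq0, mul_pos (mul_pos hq0 hq0) hq0]
    exact e3.trans e2.symm.le

/-- the prime `N` -/
theorem exN (k : ℕ) (x : ℝ) (hx : (k : ℝ) + 8 ≤ x) :
    ∃ N : ℕ, N.Prime ∧ k + 8 < N ∧ x ≤ N ∧ (N : ℝ) ≤ 4 * x := by
  have hk0 := (Nat.cast_nonneg k : (0 : ℝ) ≤ k)
  have h1 : x ≤ (⌈x⌉₊ : ℕ) := Nat.le_ceil _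
  have h2 : ((⌈x⌉₊ : ℕ) : ℝ) ≤ x + 1 := (Nat.ceil_lt_add_one (by linarith)).le
  have h0 : ⌈x⌉₊ ≠ 0 := by
    intro h
    rw [h] at h1
    push_cast at h1
    linarith
  obtain ⟨N, hNp, hN1, hN2⟩ := Nat.exists_prime_lt_and_le_two_mul _ h0
  have h3 : ((⌈x⌉₊ : ℕ) : ℝ) < N := by exact_mod_cast hN1
  have h4 : (N : ℝ) ≤ 2 * (⌈x⌉₊ : ℕ) := by exact_mod_cast hN2
  have h5 : (k : ℝ) + 8 < N := by linarith
  exact ⟨N, hNp, by exact_mod_cast h5, by linarith, by linarith⟩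

/-- the modulus `W` -/
theorem exW (s1 N : ℕ) (hN : 1 ≤ N) :
    ((primorial (s1 + ⌈Real.log N⌉₊) : ℕ) : ℝ) ≤ (4 : ℝ) ^ (s1 + 1) * (N : ℝ) ^ 2 ∧
    Real.log ((primorial (s1 + ⌈Real.log N⌉₊) : ℕ) * (N : ℝ)) ≤
      4 * ((s1 + ⌈Real.log N⌉₊ : ℕ) : ℝ) := by
  have hN0 : (0 : ℝ) < N := by exact_mod_cast hN
  have hlN : 0 ≤ Real.log N := Real.log_nonneg (by exact_mod_cast hN)
  have hlog4 : Real.log 4 ≤ 2 := by
    have : Real.log 4 = 2 * Real.log 2 := by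
      rw [show (4 : ℝ) = 2 ^ 2 by norm_num, Real.log_pow]; push_cast; ring
    rw [this]
    linarith [Real.log_two_lt_d9]
  have hlog40 : 0 < Real.log 4 := Real.log_pos (by norm_num)
  have h1 : ((primorial (s1 + ⌈Real.log N⌉₊) : ℕ) : ℝ) ≤ (4 : ℝ) ^ (s1 + ⌈Real.log N⌉₊) := by
    exact_mod_cast primorial_le_four_pow _
  have h2 : ((⌈Real.log N⌉₊ : ℕ) : ℝ) ≤ Real.log N + 1 := (Nat.ceil_lt_add_one hlN).le
  have h3 : (4 : ℝ) ^ ⌈Real.log N⌉₊ ≤ 4 * (N : ℝ) ^ 2 := by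
    calc (4 : ℝ) ^ ⌈Real.log N⌉₊ = Real.exp (Real.log 4 * (⌈Real.log N⌉₊ : ℕ)) := by
          rw [Real.exp_mul, Real.exp_log (by norm_num), Real.rpow_natCast]
      _ ≤ Real.exp (Real.log 4 * (Real.log N + 1)) := by
          apply Real.exp_le_exp.2
          gcongr
      _ = 4 * Real.exp (Real.log 4 * Real.log N) := by
          rw [mul_add, mul_one, Real.exp_add, Real.exp_log (by norm_num)]; ring
      _ ≤ 4 * Real.exp (2 * Real.log N) := by gcongr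
      _ = 4 * (N : ℝ) ^ 2 := by
          rw [two_mul, Real.exp_add, Real.exp_log hN0]; ring
  constructor
  · refine h1.trans ?_
    rw [pow_add, pow_succ]
    calc (4 : ℝ) ^ s1 * 4 ^ ⌈Real.log N⌉₊ ≤ (4 : ℝ) ^ s1 * (4 * (N : ℝ) ^ 2) := by gcongr
      _ = _ := by ring
  · have hP : (0 : ℝ) < (primorial (s1 + ⌈Real.log N⌉₊) : ℕ) := by
      exact_mod_cast primorial_pos _
    rw [Real.log_mul hP.ne' hN0.ne']
    have h4 := Real.log_le_log hP h1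
    rw [Real.log_pow] at h4
    have h5 : Real.log N ≤ (⌈Real.log N⌉₊ : ℕ) := Nat.le_ceil _
    have h6 : (0 : ℝ) ≤ ((s1 + ⌈Real.log N⌉₊ : ℕ) : ℝ) := Nat.cast_nonneg _
    have h7 : ((s1 + ⌈Real.log N⌉₊ : ℕ) : ℝ) * Real.log 4 ≤ ((s1 + ⌈Real.log N⌉₊ : ℕ) : ℝ) * 2 := by
      gcongr
    have h8 : ((⌈Real.log N⌉₊ : ℕ) : ℝ) ≤ ((s1 + ⌈Real.log N⌉₊ : ℕ) : ℝ) := by
      push_cast
      linarith [(Nat.cast_nonneg s1 : (0 : ℝ) ≤ s1)]
    linarith

open Classical in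
theorem eng (hRS : S_RS) (hMK : S_MK) (hMAJ : S_MAJ) : S_ENG := by
  intro k g δ κ hk hδ hκ
  set M : ℕ := 2 * (k * 2 ^ k) with hM
  obtain ⟨c, hc, hMAJ⟩ := hMAJ g M δ hδ
  obtain ⟨δ₀, hδ₀d⟩ : ∃ δ₀ : ℝ, δ₀ = c * κ / 24 := ⟨_, rfl⟩
  have hδ₀ : 0 < δ₀ := by rw [hδ₀d]; positivity
  obtain ⟨cR, ηR, hcR, hηR, hRS⟩ := hRS k hk δ₀ hδ₀
  obtain ⟨η, hηd⟩ : ∃ η : ℝ, η = min ηR δ₀ := ⟨_, rfl⟩
  have hη : 0 < η := by rw [hηd]; exact lt_min hηR hδ₀
  have hηR' : η ≤ ηR := by rw [hηd]; exact min_le_left _ _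
  have hηδ : η ≤ δ₀ := by rw [hηd]; exact min_le_right _ _
  obtain ⟨η', hη', hMK⟩ := hMK k hk η hη
  obtain ⟨B, s₀, hMAJ⟩ := hMAJ η' hη'
  obtain ⟨BN, hBN⟩ : ∃ BN : ℕ, BN = M * B + k * B + 1 := ⟨_, rfl⟩
  obtain ⟨B', hB'⟩ : ∃ B' : ℕ, B' = 2 * BN + 3 := ⟨_, rfl⟩
  obtain ⟨H₁, hMAJ⟩ := hMAJ B'
  obtain ⟨q, hq1, hq⟩ := Nat.exists_infinite_primes (2 * g + 2)
  obtain ⟨s1, hs1⟩ : ∃ s1 : ℕ, s1 = ⌈s₀⌉₊ + q := ⟨_, rfl⟩
  obtain ⟨KV, hKV1, hKV⟩ := V_lower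
  obtain ⟨H₂, hnum⟩ := nums k g BN s1 B' δ κ η' cR KV hδ hκ hη' hcR hB'
  refine ⟨2 * B', max H₁ H₂, ?_⟩
  intro F Y H A hF hH hsize hAsub hArough hAcard
  obtain ⟨n1, n2, n3, n4, n5, n6, n7, n8, n9, n10⟩ := hnum H ((le_max_right _ _).trans hH)
  have hHH₁ : H₁ ≤ H := (le_max_left _ _).trans hH
  obtain ⟨l, hl⟩ : ∃ l : ℝ, l = Real.log H := ⟨_, rfl⟩
  rw [← hl] at n2 n3 n4 n5 n6 n7 n8 n9 n10 ⊢
  have hk0 := (Nat.cast_nonneg k : (0 : ℝ) ≤ k)
  have hl8 : 8 ≤ l := by linarith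
  have hl1 : 1 ≤ l := by linarith
  have hl0 : 0 < l := by linarith
  have hH0 : (0 : ℝ) < H := by exact_mod_cast (show 0 < H by omega)
  have hlBN : l ≤ l ^ BN := le_self_pow₀ hl1 (by omega)
  obtain ⟨N, hNp, hNk, hN1, hN2⟩ := exN k (l ^ BN) (n2.trans hlBN)
  have : NeZero N := ⟨hNp.ne_zero⟩
  have hN0 : (0 : ℝ) < N := by exact_mod_cast hNp.pos
  have hNB' : (N : ℝ) ≤ l ^ B' := hN2.trans n6
  obtain ⟨S, hS⟩ : ∃ S : ℕ, S = s1 + ⌈Real.log N⌉₊ := ⟨_, rfl⟩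
  obtain ⟨W, hW⟩ : ∃ W : ℕ, W = primorial S := ⟨_, rfl⟩
  obtain ⟨hW1, hW2⟩ := exW s1 N hNp.one_lt.le
  rw [← hS, ← hW] at hW1 hW2
  have hWpos : 0 < W := by rw [hW]; exact primorial_pos S
  have hW0 : (0 : ℝ) < W := by exact_mod_cast hWpos
  have hWB' : (W : ℝ) ≤ l ^ B' := by
    refine hW1.trans (le_trans ?_ n5)
    gcongr
  have hWsq : Squarefree W := by
    rw [hW]
    unfold primorial
    exact Finset.squarefree_prod_of_pairwise_isCoprime (by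
      intro a ha b hb hab
      rw [mem_coe, mem_filter] at ha hb
      exact Nat.coprime_iff_isRelPrime.1 ((Nat.coprime_primes ha.2 hb.2).2 hab)) (by
      intro p hp
      rw [mem_filter] at hp
      exact hp.2.prime.squarefree)
  have hqW : q ∣ W := by
    rw [hW]
    exact hq.dvd_primorial_iff.2 (by omega)
  have hqle : q ≤ W := Nat.le_of_dvd hWpos hqW
  have hgW : g ≤ W := by omega
  have hWp : ∀ p : ℕ, p.Prime → p ≤ S → p ∣ W := fun p hp hpS => by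
    rw [hW]; exact hp.dvd_primorial_iff.2 hpS
  have hWp' : ∀ p : ℕ, p.Prime → p ∣ W → p ≤ S := fun p hp hpW => by
    rw [hW] at hpW; exact hp.dvd_primorial_iff.1 hpW
  have hlogN : Real.log N ≤ B' * l := by
    calc Real.log N ≤ Real.log (l ^ B') := Real.log_le_log hN0 hNB'
      _ = B' * Real.log l := by rw [Real.log_pow]
      _ ≤ B' * l := by
          gcongr
          linarith [Real.log_le_sub_one_of_pos hl0]
  have hSle : (S : ℝ) ≤ ((s1 : ℝ) + 1 + B') * l := by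
    have h1 : ((⌈Real.log N⌉₊ : ℕ) : ℝ) ≤ Real.log N + 1 :=
      (Nat.ceil_lt_add_one (Real.log_nonneg (by exact_mod_cast hNp.one_lt.le))).le
    have h2 : (s1 : ℝ) ≤ s1 * l := by
      have := (Nat.cast_nonneg s1 : (0 : ℝ) ≤ s1)
      nlinarith
    rw [hS]
    push_cast
    nlinarith
  have hSδ : (S : ℝ) ≤ (H : ℝ) ^ δ := hSle.trans n8
  have hSH : S ≤ H := by
    have : (S : ℝ) ≤ H := hSle.trans n9
    exact_mod_cast this
  -- the class
  obtain ⟨b, hbW, hAb⟩ := exb hF W H hWsq (fun p hp hpW => (hWp' p hp hpW).trans hSH) A κ hκ (by omega)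
    (by
      intro n hn p hp
      have hpp := Nat.prime_of_mem_primeFactors hp
      apply hArough n hn p hpp
      have h1 : (p : ℝ) ≤ S := by exact_mod_cast hWp' p hpp (Nat.dvd_of_mem_primeFactors hp)
      exact h1.trans hSδ) hAcard
  -- the majorant
  obtain ⟨ν, hν0, hνB, hνA, hνc⟩ := hMAJ F Y H W N (S : ℝ) hF hHH₁ hsize hWpos hgW hNp.one_lt.le
    (by rw [← hl]; exact hWB') (by rw [← hl]; exact hNB') (by
      rw [hS, hs1]
      push_cast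
      have h1 := Nat.le_ceil s₀
      have h2 := (Nat.cast_nonneg q : (0 : ℝ) ≤ q)
      have h3 := (Nat.cast_nonneg ⌈Real.log N⌉₊ : (0 : ℝ) ≤ _)
      linarith) (fun p hp hps => hWp p hp (by exact_mod_cast hps)) hW2
  rw [← hl] at hνB
  have hVpos := V_pos hF W H
  have hVlow := hKV g F W H hF n1 (fun p hp hpg => hWp p hp (by omega))
  rw [← hl] at hVlow
  -- the windows
  have hHW : (H : ℝ) / W - 1 ≤ ((H / W : ℕ) : ℝ) := by
    have h1 := Nat.lt_div_mul_add (a := H) hWpos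
    have h2 : (H : ℝ) < (H / W : ℕ) * W + W := by exact_mod_cast h1
    rw [sub_le_iff_le_add, div_le_iff₀ hW0]
    linarith
  have hbigL : (H : ℝ) ^ (1 / 2 : ℝ) + N + 3 ≤ H / W := by
    rw [le_div_iff₀ hW0]
    refine le_trans ?_ n10
    have : 0 ≤ (H : ℝ) ^ (1 / 2 : ℝ) := by positivity
    gcongr
  obtain ⟨L, hL⟩ : ∃ L : ℕ, L + N + 1 = H / W := by
    refine ⟨H / W - N - 1, ?_⟩
    have h1 : (N : ℝ) + 1 ≤ ((H / W : ℕ) : ℝ) := by
      have : 0 ≤ (H : ℝ) ^ (1 / 2 : ℝ) := by positivity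
      linarith
    have h2 : N + 1 ≤ H / W := by exact_mod_cast h1
    omega
  have hLreal : (H : ℝ) ^ (1 / 2 : ℝ) + 1 ≤ L := by
    have h1 : (L : ℝ) + N + 1 = ((H / W : ℕ) : ℝ) := by exact_mod_cast hL
    linarith
  have hL0 : (0 : ℝ) < L := by
    have : 0 ≤ (H : ℝ) ^ (1 / 2 : ℝ) := by positivity
    linarith
  have hL1 : 1 ≤ L := by exact_mod_cast hL0
  obtain ⟨M₀, hM₀⟩ : ∃ M₀ : ℕ, M₀ = Y / W := ⟨_, rfl⟩
  have hwin : ∀ K ∈ Ioc M₀ (M₀ + L), ∀ a : ZMod N, W * (K + rp a) + b ∈ Ioc Y (Y + H) := by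
    intro K hK a
    rw [mem_Ioc] at hK ⊢
    have ha1 := rp_pos a
    have ha2 := rp_le a
    have h1 : W * (Y / W) ≤ Y := Nat.mul_div_le Y W
    have h2 : Y < W * (Y / W) + W := Nat.lt_mul_div_succ Y hWpos |>.trans_eq (by ring)
    have h3 : W * (H / W) ≤ H := Nat.mul_div_le H W
    constructor
    · have h4 : W * (M₀ + 2) ≤ W * (K + rp a) := Nat.mul_le_mul_left _ (by omega)
      have h5 : W * (M₀ + 2) = W * (Y / W) + W + W := by rw [hM₀]; ring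
      omega
    · have h4 : W * (K + rp a) ≤ W * (M₀ + L + N) := Nat.mul_le_mul_left _ (by omega)
      have h5 : W * (M₀ + L + N) + W = W * (Y / W) + W * (L + N + 1) := by rw [hM₀]; ring
      rw [hL] at h5
      omega
  -- the linear forms condition
  have hcardI : (Ioc M₀ (M₀ + L)).card = L := by rw [Nat.card_Ioc]; omega
  have hlN1 : l ^ (M * B) * l ≤ N := by
    refine le_trans ?_ hN1
    rw [← pow_succ]
    exact pow_le_pow_right₀ hl1 (by omega)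
  have hlN2 : l ^ (k * B) * l ≤ N := by
    refine le_trans ?_ hN1
    rw [← pow_succ]
    apply pow_le_pow_right₀ hl1
    rw [hBN]
    have := Nat.zero_le (M * B)
    omega
  obtain ⟨hav, hLF⟩ := hMK N hNp (by omega) (Ioc M₀ (M₀ + L)) (wK ν N W b) (l ^ B)
    (by rw [← card_pos, hcardI]; omega) (one_le_pow₀ hl1) (fun K a => hν0 _)
    (fun K hK a => hνB _ (hwin K hK a))
    (by
      refine le_trans ?_ n3
      rw [← hM, ← pow_mul, mul_comm B M, div_le_div_iff₀ hN0 hl0, one_mul]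
      exact hlN1)
    (by
      intro m hm u hu
      rw [hcardI]
      exact hνc m hm (fun i => rp (u i)) (by
        intro i j hij
        apply hu
        have h1 := congrArg (fun x : ℕ => (x : ZMod N)) hij
        simp only [rp_cast] at h1
        exact h1) (fun i => ⟨rp_pos _, rp_le _⟩) b M₀ L (by linarith))
  rw [hcardI] at hav hLF
  obtain ⟨h, hh⟩ : ∃ h : ℕ, h = (N - 1) / 2 := ⟨_, rfl⟩
  have hνA' : ∀ n ∈ A, c ≤ ν n * V F W H := fun n hn => hνA n (hAsub hn) (hArough n hn)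
  have hbig : 2 * ((N : ℝ) + 4) ≤ κ * (H / W * V F W H) := by
    have hKVl : 0 < (KV * l) ^ (2 * g) := by positivity
    have h1 : 2 * ((N : ℝ) + 4) ≤ 10 * l ^ B' := by
      have : 1 ≤ l ^ B' := one_le_pow₀ hl1
      linarith
    have h2 : 10 * l ^ B' * (W * (KV * l) ^ (2 * g)) ≤ κ * H := by
      refine le_trans ?_ n7
      calc 10 * l ^ B' * (W * (KV * l) ^ (2 * g)) ≤ 10 * l ^ B' * (l ^ B' * (KV * l) ^ (2 * g)) := by
            gcongr
        _ = _ := by ring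
    calc 2 * ((N : ℝ) + 4) ≤ 10 * l ^ B' := h1
      _ ≤ κ * (H / W * (1 / (KV * l) ^ (2 * g))) := by
          rw [div_mul_div_comm, mul_one, mul_div_assoc', le_div_iff₀ (by positivity)]
          exact h2
      _ ≤ _ := by gcongr
  obtain ⟨K, hK, hKB, hKδ⟩ := goodK ν A Y H W b M₀ L N h c (V F W H) κ δ₀ η
    ((Ioc M₀ (M₀ + L)).filter (fun K => ¬ LFk k N (wK ν N W b K) η)) hν0 hWpos hbW hAsub hM₀ hL hL1
    (by omega) hh hVpos hc hκ hνA' hAb hbig hδ₀ (by rw [hδ₀d]; linarith) hav (filter_subset _ _) hLF hηδ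
  rw [mem_filter, not_and, not_not] at hKB
  have hKLF := hKB hK
  -- the progression
  have hAP := hRS N hNp (by omega) (wK ν N W b K) (gK ν A N W b h K)
    (fun a => ⟨gK_nonneg ν hν0 A N W b h K a, gK_le ν hν0 A N W b h K a⟩) (LF_mono hKLF hηR') hKδ
  have hMb : ∀ a, gK ν A N W b h K a ≤ l ^ B := fun a =>
    (gK_le ν hν0 A N W b h K a).trans (hνB _ (hwin K hK a))
  obtain ⟨a, d, hd, had⟩ := exAP k N (gK ν A N W b h K) (gK_nonneg ν hν0 A N W b h K) _ cR hMb hAP (by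
    refine lt_of_le_of_lt ?_ n4
    rw [← pow_mul, mul_comm B k, div_le_div_iff₀ hN0 hl0, one_mul]
    exact hlN2)
  have had2 : ∀ j < k, rp (a + (j : ZMod N) * d) ≤ h ∧ W * (K + rp (a + (j : ZMod N) * d)) + b ∈ A := by
    intro j hj
    have := had j hj
    unfold gK at this
    by_contra hcon
    rw [if_neg hcon] at this
    exact this rfl
  obtain ⟨a', r, ha', hr, hlift⟩ := lift k N h hk (by omega) a d hd (fun j hj => (had2 j hj).1)
  refine ⟨W * (K + a') + b, W * r, Nat.mul_pos hWpos hr, ?_, ?_⟩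
  · have h1 : a' + 1 * r ≤ h := by
      obtain ⟨j', hj', e⟩ := hlift 1 (by omega)
      rw [e]
      exact (had2 j' hj').1
    have h2 : (r : ℝ) ≤ N := by
      have : r ≤ N := by omega
      exact_mod_cast this
    push_cast
    calc (W : ℝ) * r ≤ l ^ B' * l ^ B' := by
          gcongr
          exact h2.trans hNB'
      _ = l ^ (2 * B') := by rw [← pow_add, two_mul]
  · intro i hi
    obtain ⟨j', hj', e⟩ := hlift i hi
    have h1 := (had2 j' hj').2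
    rw [← e] at h1
    have h2 : W * (K + a') + b + i * (W * r) = W * (K + (a' + i * r)) + b := by ring
    rw [h2]
    exact h1

end Pool.Agent.Y677.RSZ
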