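import Pool.Agent.Y677.RSZ.Top
import Pool.Agent.TH977.PW.Final

set_option autoImplicit false

/-!
# Narrow arithmetic progressions in arbitrary sets of arguments with rough values

For a system of irreducible polynomials and EVERY set `A` of the `n` in a short interval for which all
values are free of small prime factors: all but a small proportion of the expected number of elements of
`A` are terms of `l`-term arithmetic progressions contained in `A` whose difference is at most a fixed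
power of the logarithm.
-/

namespace Pool.Agent.Y677.RSZ

open Polynomial Finset Filter
open Pool.Agent.W123.RP Pool.Agent.H373R2.T7 Pool.Agent.W123.RU Pool.Agent.W123.RU.Poly
open Pool.Agent.TH977.PW (N Rough Few RoughX roughX_iff sys_ext lower_input prime_input N_mono)
open Pool.Agent.TH423.SH (PS)
open Pool.Agent.W182.PW (ext)

/-- `m` is a term of an `l`-term arithmetic progression with difference at most `D` contained in the
part of `A` in the interval `(a, b]` -/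
def InProg (A : Set ℕ) (l : ℕ) (D : ℝ) (a b m : ℕ) : Prop :=
  ∃ u d : ℕ, 1 ≤ d ∧ (d : ℝ) ≤ D ∧ (∀ i < l, u + i * d ∈ A ∧ a < u + i * d ∧ u + i * d ≤ b) ∧
    ∃ i < l, m = u + i * d

/-- the elements of `A` that are in no such progression -/
def Outside (A : Set ℕ) (l : ℕ) (D : ℝ) (a b : ℕ) : Set ℕ := {m | m ∈ A ∧ ¬ InProg A l D a b m}

lemma Sys.mono {g g' : ℕ} {F : ℤ → ℤ} (h : Sys g F) (hg : g ≤ g') : Sys g' F := by
  obtain ⟨h1, h2, Δ, hΔ⟩ := h
  refine ⟨h1, fun p hp => ⟨(h2 p hp).1.trans hg, (h2 p hp).2⟩, Δ, fun h hh => ?_⟩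
  obtain ⟨h3, h4, h5⟩ := hΔ h (hg.trans hh)
  refine ⟨h3, ?_, h5⟩
  rcases Nat.eq_zero_or_pos h with h0 | h0
  · subst h0
    have hg0 : g = 0 := by omega
    subst hg0
    have hg'0 : g' = 0 := by omega
    subst hg'0
    exact h4
  · exact h4.trans (Nat.pow_le_pow_right h0 hg)

variable {ι : Type} [Fintype ι]

lemma prod_dvd_iff (f : ι → ℤ[X]) (p : ℕ) (hp : p.Prime) (m : ℤ) :
    (p : ℤ) ∣ (∏ i, f i).eval m ↔ ∃ i, (p : ℤ) ∣ (f i).eval m := by
  rw [eval_prod]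
  have hp' : Prime (p : ℤ) := Nat.prime_iff_prime_int.1 hp
  rw [hp'.dvd_finsetProd_iff]
  simp

open Classical in
lemma V_eq (f : ι → ℤ[X]) (z : ℕ) : V (fun n => (∏ i, f i).eval n) 1 z = Vq (Poly.Q f) z := by
  unfold V Vq
  have e : PS 1 z = pz z := by
    unfold Pool.Agent.TH423.SH.PS pz
    apply filter_congr
    intro p _
    constructor
    · exact fun h => h.1
    · exact fun h => ⟨h, fun h1 => h.one_lt.ne' (Nat.dvd_one.1 h1)⟩
  rw [e]
  apply prod_congr rfl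
  intro p hp
  have hpp : p.Prime := (mem_pz.1 hp).2
  have e2 : rt (fun n => (∏ i, f i).eval n) p = nuB (Poly.Q f) p := by
    unfold rt nuB
    congr 1
    apply filter_congr
    intro r _
    exact prod_dvd_iff f p hpp r
  rw [e2]

lemma ne_zero_ev (P : ℤ[X]) (hP : P ≠ 0) : ∃ n₀ : ℕ, ∀ n : ℕ, n₀ ≤ n → P.eval (n : ℤ) ≠ 0 := by
  refine ⟨(P.roots.toFinset.sup Int.natAbs) + 1, fun n hn h0 => ?_⟩
  have h1 : (n : ℤ) ∈ P.roots.toFinset := by
    rw [Multiset.mem_toFinset, mem_roots hP]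
    exact h0
  have h2 : Int.natAbs (n : ℤ) ≤ P.roots.toFinset.sup Int.natAbs := Finset.le_sup h1
  rw [Int.natAbs_natCast] at h2
  omega

open Classical in
/-- **Narrow progressions in arbitrary sets of arguments with rough values.** -/
theorem narrow [Nonempty ι] (f : ι → ℤ[X]) (hf : Poly.Sys f) (θ : ℝ) (hθ : 0 < θ)
    (r : ℕ) (hr : 2 ≤ r) (l : ℕ) (hl : 2 ≤ l) (ε : ℝ) (hε : 0 < ε) :
    ∃ B : ℕ, ∀ᶠ X : ℕ in atTop, ∀ Y : ℕ, (X : ℝ) ^ θ ≤ Y → Y ≤ X →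
      ∀ A : Set ℕ, (∀ m ∈ A, Rough f r m) →
      (N (Outside A l (Real.log X ^ B) X (X + Y)) X (X + Y) : ℝ) ≤
        ε * Y / Real.log X ^ (Fintype.card ι) := by
  obtain ⟨k, hk⟩ : ∃ k, k = Fintype.card ι := ⟨_, rfl⟩
  rw [← hk]
  obtain ⟨v, Cv, hv, hCv, hV⟩ := V_bounds f hf
  rw [← hk] at hV
  set P : ℤ[X] := ∏ i, f i with hPdef
  have hP0 : P ≠ 0 := Finset.prod_ne_zero_iff.2 (fun i _ => (hf.irr i).ne_zero)
  obtain ⟨g₀, hg₀⟩ := poly_all P hP0 (by
    intro p hp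
    obtain ⟨m, hm⟩ := hf.adm p hp
    refine ⟨m, fun hd => ?_⟩
    obtain ⟨i, hi⟩ := (prod_dvd_iff f p hp m).1 hd
    exact hm i hi)
  obtain ⟨K, D, hKD⟩ := eval_bound P
  obtain ⟨n₀, hn₀⟩ := ne_zero_ev P hP0
  obtain ⟨g₁, hg₁⟩ : ∃ g₁ : ℕ, ((D : ℝ) + 1) / θ ≤ g₁ := exists_nat_ge _
  set g : ℕ := g₀ + g₁ with hg
  have hrr : (2 : ℝ) ≤ r := by exact_mod_cast hr
  obtain ⟨B, H₀, hB⟩ := eng_all l g (1 / r) (ε * θ ^ k / Cv) hl (by positivity) (by positivity)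
  refine ⟨B, ?_⟩
  have hXr : Tendsto (fun X : ℕ => (X : ℝ)) atTop atTop := tendsto_natCast_atTop_atTop
  have hpow : Tendsto (fun X : ℕ => (X : ℝ) ^ θ) atTop atTop := (tendsto_rpow_atTop hθ).comp hXr
  have hlogX : Tendsto (fun X : ℕ => Real.log (X : ℝ)) atTop atTop :=
    Real.tendsto_log_atTop.comp hXr
  filter_upwards [hpow.eventually_ge_atTop ((H₀ : ℝ) + 3), eventually_ge_atTop (n₀ + K * 3 ^ D + 1),
    hlogX.eventually_ge_atTop 1] with X hX1 hX2 hX3 Y hXY hYX A hA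
  have hX0 : 1 ≤ X := by omega
  have hX0r : (1 : ℝ) ≤ X := by exact_mod_cast hX0
  have hXpos : (0 : ℝ) < X := by linarith
  have hY3 : (3 : ℝ) ≤ Y := by
    have : (0 : ℝ) ≤ H₀ := Nat.cast_nonneg _
    linarith
  have hY3n : 3 ≤ Y := by exact_mod_cast hY3
  have hYpos : (0 : ℝ) < Y := by linarith
  have hYH : H₀ ≤ Y := by
    have : (H₀ : ℝ) ≤ Y := by linarith
    exact_mod_cast this
  have hYXr : (Y : ℝ) ≤ X := by exact_mod_cast hYX
  have hlogY : θ * Real.log X ≤ Real.log Y := by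
    rw [← Real.log_rpow hXpos]
    exact Real.log_le_log (by positivity) hXY
  have hlogYX : Real.log Y ≤ Real.log X := Real.log_le_log hYpos hYXr
  have hlX : 0 < Real.log X := by linarith
  have hlY : 0 < Real.log Y := lt_of_lt_of_le (by positivity) hlogY
  by_contra hcon
  rw [not_le] at hcon
  set O : Set ℕ := Outside A l (Real.log X ^ B) X (X + Y) with hO
  set S : Finset ℕ := (Ioc X (X + Y)).filter (fun m => m ∈ O) with hS
  have hSN : (N O X (X + Y) : ℝ) = S.card := by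
    unfold N
    rw [hS]
  obtain ⟨u, d, hd1, hd2, hud⟩ := hB (fun n => P.eval n) X Y S (hg₀.mono (by omega)) hYH
    (by
      intro n hn
      rw [mem_Ioc] at hn
      refine ⟨hn₀ n (by omega), ?_⟩
      have h1 := hKD (n : ℤ)
      have h2 : |((n : ℤ) : ℝ)| = (n : ℝ) := by
        rw [Int.cast_natCast, abs_of_nonneg (Nat.cast_nonneg n)]
      rw [h2] at h1
      have h3 : (n : ℝ) ≤ 2 * X := by
        have : n ≤ 2 * X := by omega
        exact_mod_cast this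
      have h4 : (K : ℝ) * (1 + (n : ℝ)) ^ D ≤ (X : ℝ) ^ (D + 1) := by
        calc (K : ℝ) * (1 + (n : ℝ)) ^ D ≤ K * (3 * X) ^ D := by
              gcongr
              linarith
          _ = K * 3 ^ D * (X : ℝ) ^ D := by rw [mul_pow]; ring
          _ ≤ X * (X : ℝ) ^ D := by
              gcongr
              have : K * 3 ^ D ≤ X := by omega
              exact_mod_cast this
          _ = _ := by rw [pow_succ]; ring
      have h5 : (X : ℝ) ^ (D + 1) ≤ (Y : ℝ) ^ g := by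
        have e1 : (X : ℝ) ^ (D + 1) = ((X : ℝ) ^ θ) ^ (((D : ℝ) + 1) / θ) := by
          rw [← Real.rpow_mul hXpos.le, mul_div_cancel₀ _ hθ.ne', ← Real.rpow_natCast]
          push_cast
          rfl
        rw [e1]
        calc ((X : ℝ) ^ θ) ^ (((D : ℝ) + 1) / θ) ≤ (Y : ℝ) ^ (((D : ℝ) + 1) / θ) :=
              Real.rpow_le_rpow (by positivity) hXY (by positivity)
          _ ≤ (Y : ℝ) ^ (g : ℝ) := by
              apply Real.rpow_le_rpow_of_exponent_le (by linarith)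
              refine hg₁.trans ?_
              rw [hg]
              push_cast
              linarith [(Nat.cast_nonneg g₀ : (0 : ℝ) ≤ g₀)]
          _ = _ := Real.rpow_natCast _ _
      have h6 : |((P.eval (n : ℤ) : ℤ) : ℝ)| ≤ (Y : ℝ) ^ g := h1.trans (h4.trans h5)
      exact_mod_cast h6)
    (filter_subset _ _)
    (by
      intro n hn p hp hpY hd
      rw [hS, mem_filter, mem_Ioc] at hn
      have hnA : n ∈ A := hn.2.1
      obtain ⟨i, hi⟩ := (prod_dvd_iff f p hp n).1 hd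
      have h1 := hA n hnA i p hp hi
      have h2 : (Y : ℝ) ^ (1 / (r : ℝ)) ≤ (n : ℝ) ^ (1 / (r : ℝ)) := by
        apply Real.rpow_le_rpow hYpos.le _ (by positivity)
        have : Y ≤ n := by omega
        exact_mod_cast this
      linarith)
    (by
      rw [V_eq, ← hSN]
      refine le_trans ?_ hcon.le
      have h1 := (hV Y hY3n).2
      calc ε * θ ^ k / Cv * (Y * Vq (Poly.Q f) Y) ≤
            ε * θ ^ k / Cv * (Y * (Cv / Real.log Y ^ k)) := by gcongr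
        _ ≤ ε * θ ^ k / Cv * (Y * (Cv / (θ * Real.log X) ^ k)) := by gcongr
        _ = ε * Y / Real.log X ^ k := by
            rw [mul_pow]
            field_simp)
  have hmem : ∀ i < l, u + i * d ∈ A ∧ X < u + i * d ∧ u + i * d ≤ X + Y := by
    intro i hi
    have h1 := hud i hi
    rw [hS, mem_filter, mem_Ioc] at h1
    exact ⟨h1.2.1, h1.1.1, h1.1.2⟩
  have h0 := hud 0 (by omega)
  rw [hS, mem_filter] at h0
  refine h0.2.2 ⟨u, d, hd1, hd2.trans ?_, hmem, 0, by omega, rfl⟩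
  exact pow_le_pow_left₀ hlY.le hlogYX B

/-- integer arguments, with the existence -/
theorem narrow_final [Nonempty ι] (f : ι → ℤ[X]) (hf : Poly.Sys f) (R Al : ℕ → Set ℕ)
    (k : ℕ) (hk : Fintype.card ι = k) (hR : ∀ r m : ℕ, 2 ≤ r → m ∈ R r → Rough f r m)
    (hAl : ∀ r m : ℕ, 2 ≤ r → Rough f r m → Few f r m → m ∈ Al r) (θ : ℝ) (hθ : 0 < θ) (hθ1 : θ ≤ 1) :
    ∃ r0 : ℕ, 2 ≤ r0 ∧ ∀ r : ℕ, r0 ≤ r →
    (∃ κ : ℝ, 0 < κ ∧ ∀ᶠ X : ℕ in atTop, ∀ Y : ℕ, (X : ℝ) ^ θ ≤ Y → Y ≤ X →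
      κ * Y / Real.log X ^ k ≤ N (Al r) X (X + Y)) ∧
    ∀ l : ℕ, 2 ≤ l → ∀ ε : ℝ, 0 < ε → ∃ B : ℕ, ∀ᶠ X : ℕ in atTop, ∀ Y : ℕ,
      (X : ℝ) ^ θ ≤ Y → Y ≤ X → ∀ A : Set ℕ, A ⊆ R r →
        (N (Outside A l (Real.log X ^ B) X (X + Y)) X (X + Y) : ℝ) ≤ ε * Y / Real.log X ^ k := by
  classical
  subst hk
  obtain ⟨r1, hr1, h1⟩ := lower_input f hf θ hθ hθ1
  refine ⟨r1, hr1, fun r hr => ⟨?_, ?_⟩⟩
  · obtain ⟨κ, hκ, h⟩ := h1 r hr
    refine ⟨κ, hκ, ?_⟩
    filter_upwards [h] with X hX Y hXY hYX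
    refine (hX Y hXY hYX).trans ?_
    have h3 : ((Finset.Ioc X (X + Y)).filter (fun m => Rough f r m ∧ Few f r m)).card ≤
        N (Al r) X (X + Y) := by
      apply Pool.Agent.TH977.PW.card_le_N _ _ _ _ id (Function.injective_id.injOn)
      intro m hm
      rw [mem_filter, mem_Ioc] at hm
      exact ⟨hm.1.1, hm.1.2, hAl r m (hr1.trans hr) hm.2.1 hm.2.2⟩
    exact_mod_cast h3
  · intro l hl ε hε
    obtain ⟨B, hB⟩ := narrow f hf θ hθ r (hr1.trans hr) l hl ε hε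
    refine ⟨B, ?_⟩
    filter_upwards [hB] with X hX Y hXY hYX A hA
    exact hX Y hXY hYX A (fun m hm => hR r m (hr1.trans hr) (hA hm))

/-- prime arguments, with the existence -/
theorem narrow_prime (f : ι → ℤ[X])
    (hirr : ∀ i, Irreducible (f i)) (hdeg : ∀ i, 0 < (f i).natDegree)
    (hlead : ∀ i, 0 < (f i).leadingCoeff) (hinj : Function.Injective f) (hX : ∀ i, f i ≠ X)
    (hadm : ∀ p : ℕ, p.Prime → ∃ m : ℕ, ¬ p ∣ m ∧ ∀ i, ¬ (p : ℤ) ∣ (f i).eval (m : ℤ))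
    (R Al : ℕ → Set ℕ) (k : ℕ) (hk : Fintype.card ι + 1 = k)
    (hR : ∀ r m : ℕ, 2 ≤ r → m ∈ R r → RoughX f r m)
    (hAl : ∀ r m : ℕ, 2 ≤ r → m.Prime → Rough f r m → Few f r m → m ∈ Al r)
    (θ : ℝ) (hθ : 0 < θ) (hθ1 : θ ≤ 1) :
    ∃ r0 : ℕ, 2 ≤ r0 ∧ ∀ r : ℕ, r0 ≤ r →
    (∃ κ : ℝ, 0 < κ ∧ ∀ᶠ X : ℕ in atTop, κ * X / Real.log X ^ k ≤ N (Al r) X (2 * X)) ∧
    ∀ l : ℕ, 2 ≤ l → ∀ ε : ℝ, 0 < ε → ∃ B : ℕ, ∀ᶠ X : ℕ in atTop, ∀ Y : ℕ,
      (X : ℝ) ^ θ ≤ Y → Y ≤ X → ∀ A : Set ℕ, A ⊆ R r →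
        (N (Outside A l (Real.log X ^ B) X (X + Y)) X (X + Y) : ℝ) ≤ ε * Y / Real.log X ^ k := by
  classical
  subst hk
  have hg := sys_ext f hirr hdeg hlead hinj hX hadm
  have hcard : Fintype.card (Option ι) = Fintype.card ι + 1 := Fintype.card_option
  obtain ⟨r1, hr1, h1⟩ := prime_input f hg
  refine ⟨r1, hr1, fun r hr => ⟨?_, ?_⟩⟩
  · obtain ⟨κ, hκ, h⟩ := h1 r hr
    refine ⟨κ, hκ, ?_⟩
    filter_upwards [h] with X hX
    refine hX.trans ?_
    have h3 : ((Finset.Ioc X (2 * X)).filter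
        (fun m => m.Prime ∧ Rough f r m ∧ Few f r m)).card ≤ N (Al r) X (2 * X) := by
      apply Pool.Agent.TH977.PW.card_le_N _ _ _ _ id (Function.injective_id.injOn)
      intro m hm
      rw [mem_filter, mem_Ioc] at hm
      exact ⟨hm.1.1, hm.1.2, hAl r m (hr1.trans hr) hm.2.1 hm.2.2.1 hm.2.2.2⟩
    exact_mod_cast h3
  · intro l hl ε hε
    obtain ⟨B, hB⟩ := narrow (ext f) hg θ hθ r (hr1.trans hr) l hl ε hε
    refine ⟨B, ?_⟩
    filter_upwards [hB] with X hX Y hXY hYX A hA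
    rw [← hcard]
    exact hX Y hXY hYX A (fun m hm => (roughX_iff f r m).1 (hR r m (hr1.trans hr) (hA hm)))

end Pool.Agent.Y677.RSZ
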