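import Pool.Agent.Y677.RSZ.FinEx

set_option autoImplicit false

/-!
# Narrow progressions between consecutive powers
-/

namespace Pool.Agent.Y677.RSZ

open Finset Filter
open Pool.Agent.TH977.PW (N N_mono)

lemma InProg.mono {A A' : Set ℕ} {l : ℕ} {D D' : ℝ} {a b m : ℕ} (hA : A ⊆ A') (hD : D ≤ D')
    (h : InProg A l D a b m) : InProg A' l D' a b m := by
  obtain ⟨u, d, h1, h2, h3, h4⟩ := h
  exact ⟨u, d, h1, h2.trans hD, fun i hi => ⟨hA (h3 i hi).1, (h3 i hi).2⟩, h4⟩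

lemma Outside_mono {A : Set ℕ} {l : ℕ} {D D' : ℝ} {a b : ℕ} (hD : D ≤ D') :
    N (Outside A l D' a b) a b ≤ N (Outside A l D a b) a b := by
  apply N_mono
  rintro m _ _ ⟨h1, h2⟩
  exact ⟨h1, fun h => h2 (h.mono subset_rfl hD)⟩

lemma pow_upper (n : ℕ) (hn : 1 ≤ n) (m : ℕ) (hm : 1 ≤ m) :
    (n + 1) ^ m ≤ n ^ m + 3 ^ m * n ^ (m - 1) := by
  induction m, hm using Nat.le_induction with
  | base => simp
  | succ m hm ih =>
    have e : n ^ m = n ^ (m - 1) * n := by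
      rw [← pow_succ]
      congr 1
      omega
    have h3 : 1 ≤ 3 ^ m := Nat.one_le_pow _ _ (by norm_num)
    have h4 : n ^ (m - 1) ≤ n ^ m := by
      rw [e]
      exact Nat.le_mul_of_pos_right _ hn
    calc (n + 1) ^ (m + 1) = (n + 1) ^ m * (n + 1) := pow_succ _ _
      _ ≤ (n ^ m + 3 ^ m * n ^ (m - 1)) * (n + 1) := Nat.mul_le_mul_right _ ih
      _ = n ^ m * n + n ^ m + 3 ^ m * (n ^ (m - 1) * n) + 3 ^ m * n ^ (m - 1) := by ring
      _ = n ^ m * n + n ^ m + 3 ^ m * n ^ m + 3 ^ m * n ^ (m - 1) := by rw [← e]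
      _ ≤ n ^ m * n + 3 ^ m * n ^ m + 3 ^ m * n ^ m + 3 ^ m * n ^ m := by
          have h5 : n ^ m ≤ 3 ^ m * n ^ m := Nat.le_mul_of_pos_left _ h3
          have h6 : 3 ^ m * n ^ (m - 1) ≤ 3 ^ m * n ^ m := Nat.mul_le_mul_left _ h4
          omega
      _ = n ^ (m + 1) + 3 ^ (m + 1) * n ^ (m + 1 - 1) := by
          rw [Nat.add_sub_cancel]
          ring

lemma pow_lower (n : ℕ) (m : ℕ) (hm : 2 ≤ m) : n ^ m + 2 * n ^ (m - 1) ≤ (n + 1) ^ m := by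
  induction m, hm using Nat.le_induction with
  | base => norm_num; nlinarith
  | succ m hm ih =>
    have e : n ^ m = n ^ (m - 1) * n := by
      rw [← pow_succ]
      congr 1
      omega
    calc n ^ (m + 1) + 2 * n ^ (m + 1 - 1) = n ^ m * n + 2 * n ^ m := by
          rw [Nat.add_sub_cancel]
          ring
      _ = n ^ m * n + 2 * (n ^ (m - 1) * n) := by rw [← e]
      _ = (n ^ m + 2 * n ^ (m - 1)) * n := by ring
      _ ≤ (n + 1) ^ m * n := Nat.mul_le_mul_right _ ih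
      _ ≤ (n + 1) ^ (m + 1) := by
          rw [pow_succ]
          exact Nat.mul_le_mul_left _ (by omega)

/-- **Between consecutive powers.** -/
theorem between (m s k : ℕ) (hm : 2 ≤ m) {R Al : Set ℕ} (hAR : Al ⊆ R)
    (h1 : ∃ κ : ℝ, 0 < κ ∧ ∀ᶠ X : ℕ in atTop, ∀ Y : ℕ,
      (X : ℝ) ^ (((m - 1 : ℕ) : ℝ) / m) ≤ Y → Y ≤ X → κ * Y / Real.log X ^ k ≤ N Al X (X + Y))
    (h2 : ∀ l : ℕ, 2 ≤ l → ∀ ε : ℝ, 0 < ε → ∃ B : ℕ, ∀ᶠ X : ℕ in atTop, ∀ Y : ℕ,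
      (X : ℝ) ^ (((m - 1 : ℕ) : ℝ) / m) ≤ Y → Y ≤ X → ∀ A : Set ℕ, A ⊆ R →
        (N (Outside A l (Real.log X ^ B) X (X + Y)) X (X + Y) : ℝ) ≤ ε * Y / Real.log X ^ k) :
    (∃ κ : ℝ, 0 < κ ∧ ∀ᶠ n : ℕ in atTop, κ * (n : ℝ) ^ (m - 1) / Real.log n ^ k ≤
      N Al (n ^ m) ((n + 1) ^ m - s)) ∧
    (∀ l : ℕ, 2 ≤ l → ∀ ε : ℝ, 0 < ε → ∃ B : ℕ, ∀ᶠ n : ℕ in atTop, ∀ A : Set ℕ, A ⊆ R →
        (N (Outside A l (Real.log n ^ B) (n ^ m) ((n + 1) ^ m - s)) (n ^ m) ((n + 1) ^ m - s) : ℝ) ≤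
          ε * (n : ℝ) ^ (m - 1) / Real.log n ^ k) ∧
    ∀ l : ℕ, ∃ B : ℕ, ∀ᶠ n : ℕ in atTop, ∃ u d : ℕ, 1 ≤ d ∧ (d : ℝ) ≤ Real.log n ^ B ∧
      ∀ i < l, u + i * d ∈ Al ∧ n ^ m < u + i * d ∧ u + i * d ≤ (n + 1) ^ m - s := by
  have hmr : (0 : ℝ) < m := by exact_mod_cast (by omega : 0 < m)
  have hT : Tendsto (fun n : ℕ => n ^ m) atTop atTop := tendsto_pow_atTop (by omega)
  have hlog : Tendsto (fun n : ℕ => Real.log (n : ℝ)) atTop atTop :=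
    Real.tendsto_log_atTop.comp tendsto_natCast_atTop_atTop
  -- the interval
  have hI : ∀ᶠ n : ℕ in atTop, ∃ Y : ℕ, n ^ m + Y = (n + 1) ^ m - s ∧
      (((n ^ m : ℕ) : ℝ)) ^ (((m - 1 : ℕ) : ℝ) / m) ≤ Y ∧ Y ≤ n ^ m ∧
      (n : ℝ) ^ (m - 1) ≤ Y ∧ (Y : ℝ) ≤ 3 ^ m * (n : ℝ) ^ (m - 1) ∧
      Real.log ((n ^ m : ℕ) : ℝ) = m * Real.log n ∧ (m : ℝ) ≤ Real.log n := by
    filter_upwards [eventually_ge_atTop (s + 3 ^ m + 1), hlog.eventually_ge_atTop (m : ℝ)] with n hn hlog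
    obtain ⟨c, hc⟩ : ∃ c, c = 3 ^ m := ⟨_, rfl⟩
    rw [← hc] at hn
    have hn1 : 1 ≤ n := by omega
    have hns : s ≤ n := by omega
    have hn3 : 3 ^ m ≤ n := by
      rw [← hc]
      omega
    have hlow := pow_lower n m hm
    have hup := pow_upper n hn1 m (by omega)
    have e : n ^ m = n ^ (m - 1) * n := by
      rw [← pow_succ]
      congr 1
      omega
    have hs1 : s ≤ n ^ (m - 1) := by
      calc s ≤ n := hns
        _ = n ^ 1 := (pow_one _).symm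
        _ ≤ n ^ (m - 1) := Nat.pow_le_pow_right hn1 (by omega)
    have hYlow : n ^ (m - 1) ≤ (n + 1) ^ m - s - n ^ m := by omega
    have hYup : (n + 1) ^ m - s - n ^ m ≤ 3 ^ m * n ^ (m - 1) := by omega
    refine ⟨(n + 1) ^ m - s - n ^ m, by omega, ?_, ?_, by exact_mod_cast hYlow,
      by exact_mod_cast hYup, ?_, hlog⟩
    · have e2 : (((n ^ m : ℕ) : ℝ)) ^ (((m - 1 : ℕ) : ℝ) / m) = ((n ^ (m - 1) : ℕ) : ℝ) := by
        push_cast
        rw [← Real.rpow_natCast (n : ℝ) m, ← Real.rpow_mul (Nat.cast_nonneg n),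
          mul_div_cancel₀ _ hmr.ne', Real.rpow_natCast]
      rw [e2]
      exact_mod_cast hYlow
    · refine hYup.trans ?_
      rw [e, mul_comm]
      exact Nat.mul_le_mul_left _ hn3
    · push_cast
      rw [Real.log_pow]
  have hA : ∃ κ : ℝ, 0 < κ ∧ ∀ᶠ n : ℕ in atTop, κ * (n : ℝ) ^ (m - 1) / Real.log n ^ k ≤
      N Al (n ^ m) ((n + 1) ^ m - s) := by
    obtain ⟨κ, hκ, h1⟩ := h1
    refine ⟨κ / m ^ k, by positivity, ?_⟩
    filter_upwards [hT.eventually h1, hI, eventually_ge_atTop 2] with n hn hY hn2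
    obtain ⟨Y, e1, e2, e3, e4, e5, e6, e7⟩ := hY
    have hlogn : 0 < Real.log n := lt_of_lt_of_le hmr e7
    have h3 := hn Y e2 e3
    rw [e1, e6] at h3
    refine le_trans (le_of_eq_of_le ?_ (?_ : κ * (n : ℝ) ^ (m - 1) / (m * Real.log n) ^ k ≤ _)) h3
    · rw [mul_pow]
      field_simp
    · gcongr
  have hB : ∀ l : ℕ, 2 ≤ l → ∀ ε : ℝ, 0 < ε → ∃ B : ℕ, ∀ᶠ n : ℕ in atTop, ∀ A : Set ℕ, A ⊆ R →
        (N (Outside A l (Real.log n ^ B) (n ^ m) ((n + 1) ^ m - s)) (n ^ m) ((n + 1) ^ m - s) : ℝ) ≤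
          ε * (n : ℝ) ^ (m - 1) / Real.log n ^ k := by
    intro l hl ε hε
    obtain ⟨B, hB⟩ := h2 l hl (ε / 3 ^ m) (by positivity)
    refine ⟨2 * B, ?_⟩
    filter_upwards [hT.eventually hB, hI, eventually_ge_atTop 2] with n hn hY hn2 A hA
    obtain ⟨Y, e1, e2, e3, e4, e5, e6, e7⟩ := hY
    have hlogn : 0 < Real.log n := lt_of_lt_of_le hmr e7
    have hm1 : (1 : ℝ) ≤ m := by exact_mod_cast (by omega : 1 ≤ m)
    have h3 := hn Y e2 e3 A hA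
    rw [e1, e6] at h3
    have h4 : (m * Real.log n) ^ B ≤ Real.log n ^ (2 * B) := by
      rw [pow_mul]
      apply pow_le_pow_left₀ (by positivity)
      nlinarith
    have h5 : (N (Outside A l (Real.log n ^ (2 * B)) (n ^ m) ((n + 1) ^ m - s)) (n ^ m)
        ((n + 1) ^ m - s) : ℝ) ≤ N (Outside A l ((m * Real.log n) ^ B) (n ^ m)
        ((n + 1) ^ m - s)) (n ^ m) ((n + 1) ^ m - s) := by
      exact_mod_cast Outside_mono h4
    refine h5.trans (h3.trans ?_)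
    calc ε / 3 ^ m * Y / (m * Real.log n) ^ k ≤ ε / 3 ^ m * (3 ^ m * (n : ℝ) ^ (m - 1)) /
          (1 * Real.log n) ^ k := by gcongr
      _ = ε * (n : ℝ) ^ (m - 1) / Real.log n ^ k := by
          rw [one_mul]
          field_simp
  refine ⟨hA, hB, ?_⟩
  intro l
  obtain ⟨κ, hκ, hA⟩ := hA
  obtain ⟨B, hB⟩ := hB (l + 2) (by omega) (κ / 2) (by positivity)
  refine ⟨B, ?_⟩
  filter_upwards [hA, hB, eventually_ge_atTop 3] with n hn1 hn2 hn3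
  have hn3r : (3 : ℝ) ≤ n := by exact_mod_cast hn3
  have hlog : 0 < Real.log n := Real.log_pos (by linarith)
  obtain ⟨u, d, h4, h5, h6⟩ := prog_of_count Al (l + 2) (Real.log n ^ B) (n ^ m) ((n + 1) ^ m - s)
    (κ / 2 * (n : ℝ) ^ (m - 1) / Real.log n ^ k) (lt_of_lt_of_le (by
      have : 0 < (n : ℝ) ^ (m - 1) := by positivity
      apply div_lt_div_of_pos_right _ (by positivity)
      nlinarith) hn1) (hn2 Al hAR)
  exact ⟨u, d, h4, h5, fun i hi => h6 i (by omega)⟩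

end Pool.Agent.Y677.RSZ
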